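import Pool.Agent.MDP.Stmts

/-!
# Module Count: the total weight of the covered part of the leaves (section 7)
-/

open Finset

noncomputable section

namespace Pool.MDP

section Count

variable {V : Type} [Fintype V] [DecidableEq V]

theorem count_mem_nout {adj : V → V → Prop} {S : Finset V} {x : V} :
    x ∈ Nout adj S ↔ x ∉ S ∧ ∃ s ∈ S, adj s x := by
  simp [Nout]

theorem count_wt_mono {w : V → ℝ} (hw : ∀ v, 0 < w v) {S T : Finset V} (h : S ⊆ T) :
    wt w S ≤ wt w T :=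
  Finset.sum_le_sum_of_subset_of_nonneg h fun v _ _ => (hw v).le

theorem count_wt_nonneg {w : V → ℝ} (hw : ∀ v, 0 < w v) (S : Finset V) : 0 ≤ wt w S :=
  Finset.sum_nonneg fun v _ => (hw v).le

theorem count_wt_union_le {w : V → ℝ} (hw : ∀ v, 0 < w v) (S T : Finset V) :
    wt w (S ∪ T) ≤ wt w S + wt w T := by
  have h := Finset.sum_union_inter (s₁ := S) (s₂ := T) (f := w)
  have h2 := count_wt_nonneg hw (S ∩ T)
  unfold wt at *
  linarith

theorem count_wt_disj {w : V → ℝ} {S T : Finset V} (h : Disjoint S T) :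
    wt w (S ∪ T) = wt w S + wt w T :=
  Finset.sum_union h

theorem count_wt_biUnion_le {w : V → ℝ} (hw : ∀ v, 0 < w v) {ι : Type} [DecidableEq ι]
    (s : Finset ι) (f : ι → Finset V) : wt w (s.biUnion f) ≤ ∑ i ∈ s, wt w (f i) := by
  induction s using Finset.induction_on with
  | empty => simp [wt]
  | insert a s ha ih =>
    rw [Finset.biUnion_insert, Finset.sum_insert ha]
    refine (count_wt_union_le hw _ _).trans ?_
    linarith

theorem count_eq_of_wt {w : V → ℝ} (hw : ∀ v, 0 < w v) {S T : Finset V} (h : S ⊆ T)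
    (hwt : wt w T ≤ wt w S) : S = T := by
  have h1 : wt w (T \ S) + wt w S = wt w T := Finset.sum_sdiff h
  have h2 : wt w (T \ S) ≤ 0 := by linarith
  have h3 : T \ S = ∅ := by
    by_contra hne
    obtain ⟨x, hx⟩ := Finset.nonempty_iff_ne_empty.2 hne
    have : w x ≤ wt w (T \ S) := Finset.single_le_sum (fun v _ => (hw v).le) hx
    linarith [hw x]
  exact Finset.Subset.antisymm h (Finset.sdiff_eq_empty_iff_subset.1 h3)

/-- submodularity with equality -/
theorem count_nout_inter {adj : V → V → Prop} {w : V → ℝ} (hw : ∀ v, 0 < w v) {c : ℝ}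
    {D N : Finset V} (hD : wt w (Nout adj D) = c) (hN : wt w (Nout adj N) = c)
    (hI : wt w (Nout adj (D ∩ N)) = c) (hU : wt w (Nout adj (D ∪ N)) = c) {x : V}
    (hx : x ∈ Nout adj D) (hxN : x ∈ N) : x ∈ Nout adj (D ∩ N) := by
  set P := Nout adj D ∩ N with hP
  set Q := Nout adj N ∩ D with hQ
  set I := Nout adj D ∩ Nout adj N with hI'
  have hsub : Nout adj (D ∩ N) ⊆ P ∪ Q ∪ I := by
    intro y hy
    rw [count_mem_nout] at hy
    obtain ⟨hy1, s, hs, hsy⟩ := hy
    rw [mem_inter] at hs hy1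
    simp only [hP, hQ, hI', mem_union, mem_inter, count_mem_nout]
    by_cases h1 : y ∈ D
    · have h2 : y ∉ N := fun h => hy1 ⟨h1, h⟩
      exact Or.inl (Or.inr ⟨⟨h2, s, hs.2, hsy⟩, h1⟩)
    · by_cases h2 : y ∈ N
      · exact Or.inl (Or.inl ⟨⟨h1, s, hs.1, hsy⟩, h2⟩)
      · exact Or.inr ⟨⟨h1, s, hs.1, hsy⟩, ⟨h2, s, hs.2, hsy⟩⟩
  have hPQ : Disjoint P Q := by
    rw [Finset.disjoint_left]
    intro y hy hy'
    simp only [hP, hQ, mem_inter, count_mem_nout] at hy hy'
    exact hy.1.1 hy'.2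
  have hPQI : Disjoint (P ∪ Q) I := by
    rw [Finset.disjoint_left]
    intro y hy hy'
    simp only [hP, hQ, hI', mem_union, mem_inter, count_mem_nout] at hy hy'
    rcases hy with hy | hy
    · exact hy'.2.1 hy.2
    · exact hy'.1.1 hy.2
  have e1 : wt w (P ∪ Q ∪ I) = wt w P + wt w Q + wt w I := by
    rw [count_wt_disj hPQI, count_wt_disj hPQ]
  -- the two outer parts
  have hD1 : wt w (Nout adj D) = wt w P + wt w (Nout adj D \ N) := by
    have : Nout adj D = P ∪ (Nout adj D \ N) := by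
      ext y; simp only [hP, mem_union, mem_inter, mem_sdiff]; tauto
    conv_lhs => rw [this]
    apply count_wt_disj
    rw [Finset.disjoint_left]
    intro y hy hy'
    simp only [hP, mem_inter, mem_sdiff] at hy hy'
    exact hy'.2 hy.2
  have hN1 : wt w (Nout adj N) = wt w Q + wt w (Nout adj N \ D) := by
    have : Nout adj N = Q ∪ (Nout adj N \ D) := by
      ext y; simp only [hQ, mem_union, mem_inter, mem_sdiff]; tauto
    conv_lhs => rw [this]
    apply count_wt_disj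
    rw [Finset.disjoint_left]
    intro y hy hy'
    simp only [hQ, mem_inter, mem_sdiff] at hy hy'
    exact hy'.2 hy.2
  have hU1 : Nout adj (D ∪ N) = (Nout adj D \ N) ∪ (Nout adj N \ D) := by
    ext y
    simp only [mem_union, mem_sdiff, count_mem_nout]
    constructor
    · rintro ⟨h1, s, hs, hsy⟩
      rw [not_or] at h1
      rcases hs with hs | hs
      · exact Or.inl ⟨⟨h1.1, s, hs, hsy⟩, h1.2⟩
      · exact Or.inr ⟨⟨h1.2, s, hs, hsy⟩, h1.1⟩
    · rintro (⟨⟨h1, s, hs, hsy⟩, h2⟩ | ⟨⟨h1, s, hs, hsy⟩, h2⟩)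
      · exact ⟨by rw [not_or]; exact ⟨h1, h2⟩, s, Or.inl hs, hsy⟩
      · exact ⟨by rw [not_or]; exact ⟨h2, h1⟩, s, Or.inr hs, hsy⟩
  have hI1 : I = (Nout adj D \ N) ∩ (Nout adj N \ D) := by
    ext y
    simp only [hI', mem_inter, mem_sdiff, count_mem_nout]
    tauto
  have hsum : wt w (Nout adj (D ∪ N)) + wt w I = wt w (Nout adj D \ N) + wt w (Nout adj N \ D) := by
    rw [hU1, hI1]
    exact Finset.sum_union_inter
  have heq := count_eq_of_wt hw hsub (by rw [e1]; linarith)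
  rw [heq]
  simp only [hP, hQ, hI', mem_union, mem_inter]
  exact Or.inl (Or.inl ⟨hx, hxN⟩)

/-- the members inside `U` -/
def countSub (𝒟 : Finset (Finset V)) (U : Finset V) : Finset (Finset V) := 𝒟.filter (· ⊆ U)

theorem count_mem_leaves {𝒟 : Finset (Finset V)} {E : Finset V} :
    E ∈ leaves 𝒟 ↔ E ∈ 𝒟 ∧ ∀ D ∈ 𝒟, D ⊆ E → D = E := by
  simp [leaves]

theorem count_mem_covset {adj : V → V → Prop} {𝒟 : Finset (Finset V)} {x : V} :
    x ∈ covset adj 𝒟 ↔ ∃ E ∈ leaves 𝒟, x ∈ E ∧ ∃ D ∈ 𝒟, Disjoint D E ∧ x ∈ Nout adj D := by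
  simp [covset]

theorem count_leaf_sub {𝒟 : Finset (Finset V)} {E U : Finset V} (hE : E ∈ leaves 𝒟)
    (h : E ⊆ U) : E ∈ leaves (countSub 𝒟 U) := by
  rw [count_mem_leaves] at hE ⊢
  refine ⟨Finset.mem_filter.2 ⟨hE.1, h⟩, fun D hD => hE.2 D (Finset.mem_filter.1 hD).1⟩

theorem count_sub_leaf {𝒟 : Finset (Finset V)} {E U : Finset V}
    (hE : E ∈ leaves (countSub 𝒟 U)) : E ∈ leaves 𝒟 ∧ E ⊆ U := by
  rw [count_mem_leaves] at hE
  obtain ⟨h1, h2⟩ := hE
  obtain ⟨h3, h4⟩ := Finset.mem_filter.1 h1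
  refine ⟨?_, h4⟩
  rw [count_mem_leaves]
  exact ⟨h3, fun D hD hDE => h2 D (Finset.mem_filter.2 ⟨hD, hDE.trans h4⟩) hDE⟩

theorem count_ind (adj : V → V → Prop) (w : V → ℝ) (c : ℝ) (R : Finset V)
    (hw : ∀ v, 0 < w v) (hR : ∀ Z ⊆ R, Z.Nonempty → c ≤ wt w (Nout adj Z)) :
    ∀ (t : ℕ) (𝒟 : Finset (Finset V)), 𝒟.card ≤ t →
      (∀ D ∈ 𝒟, D.Nonempty ∧ D ⊆ R ∧ wt w (Nout adj D) = c) →
      (∀ D₁ ∈ 𝒟, ∀ D₂ ∈ 𝒟, (D₁ ∩ D₂).Nonempty → D₁ ∩ D₂ ∈ 𝒟 ∧ D₁ ∪ D₂ ∈ 𝒟) → 𝒟.Nonempty →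
      wt w (covset adj 𝒟) ≤ (((leaves 𝒟).card : ℝ) - 1) * c := by
  intro t
  induction t with
  | zero =>
    intro 𝒟 h0 _ _ hne
    exact absurd (Finset.card_pos.2 hne) (by omega)
  | succ t ih =>
    intro 𝒟 hcard h𝒟 hcl hne
    have hc0 : 0 ≤ c := by
      obtain ⟨D, hD⟩ := hne
      rw [← (h𝒟 D hD).2.2]
      exact count_wt_nonneg hw _
    set U := 𝒟.sup id with hU
    have hsubU : ∀ D ∈ 𝒟, D ⊆ U := fun D hD => Finset.le_sup (f := id) hD
    by_cases hone : (𝒟.erase U).Nonempty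
    swap
    · -- only the top
      rw [Finset.not_nonempty_iff_eq_empty] at hone
      have hall : ∀ D ∈ 𝒟, D = U := by
        intro D hD
        by_contra h
        have : D ∈ 𝒟.erase U := Finset.mem_erase.2 ⟨h, hD⟩
        rw [hone] at this
        simp at this
      obtain ⟨D0, hD0⟩ := hne
      have hU𝒟 : U ∈ 𝒟 := by rw [← hall D0 hD0]; exact hD0
      have hcov : covset adj 𝒟 = ∅ := by
        rw [Finset.eq_empty_iff_forall_notMem]
        intro x hx
        obtain ⟨E, hE, hxE, D, hD, hDE, -⟩ := count_mem_covset.1 hx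
        have e1 := hall E (count_mem_leaves.1 hE).1
        have e2 := hall D hD
        rw [e1, e2] at hDE
        rw [disjoint_self] at hDE
        rw [e1] at hxE
        rw [hDE] at hxE
        simp at hxE
      have hlv : 1 ≤ (leaves 𝒟).card := by
        rw [Nat.one_le_iff_ne_zero, ← Nat.pos_iff_ne_zero, Finset.card_pos]
        refine ⟨U, count_mem_leaves.2 ⟨hU𝒟, fun D hD _ => hall D hD⟩⟩
      rw [hcov]
      have h1 : (1 : ℝ) ≤ (leaves 𝒟).card := by exact_mod_cast hlv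
      have h2 : wt w ∅ = 0 := by simp [wt]
      rw [h2]
      exact mul_nonneg (by linarith) hc0
    -- a maximal member different from the top
    obtain ⟨N, hN⟩ := (𝒟.erase U).exists_maximal hone
    have hN𝒟 : N ∈ 𝒟 := (Finset.mem_erase.1 hN.1).2
    have hNU : N ≠ U := (Finset.mem_erase.1 hN.1).1
    have hNmax : ∀ D ∈ 𝒟, N ⊆ D → D ≠ N → D = U := by
      intro D hD hND hne'
      by_contra h
      exact hne' (Finset.Subset.antisymm (hN.2 (Finset.mem_erase.2 ⟨h, hD⟩) hND) hND)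
    -- members disjoint from `N`
    set 𝒟' := 𝒟.filter (fun D => Disjoint D N) with h𝒟'
    set ℳ := 𝒟'.filter (fun M => ∀ D ∈ 𝒟', M ⊆ D → D = M) with hℳ
    have hcl' : ∀ D₁ ∈ 𝒟', ∀ D₂ ∈ 𝒟', (D₁ ∩ D₂).Nonempty → D₁ ∪ D₂ ∈ 𝒟' := by
      intro D₁ h₁ D₂ h₂ hne'
      rw [Finset.mem_filter] at h₁ h₂ ⊢
      exact ⟨(hcl D₁ h₁.1 D₂ h₂.1 hne').2, Finset.disjoint_union_left.2 ⟨h₁.2, h₂.2⟩⟩
    have hup : ∀ D ∈ 𝒟', ∃ M ∈ ℳ, D ⊆ M := by
      intro D hD
      have hne' : (𝒟'.filter (fun M => D ⊆ M)).Nonempty := ⟨D, by simp [hD]⟩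
      obtain ⟨M, hM⟩ := Finset.exists_maximal hne'
      have hM1 := Finset.mem_filter.1 hM.1
      refine ⟨M, Finset.mem_filter.2 ⟨hM1.1, ?_⟩, hM1.2⟩
      intro D' hD' hMD'
      exact Finset.Subset.antisymm
        (hM.2 (Finset.mem_filter.2 ⟨hD', hM1.2.trans hMD'⟩) hMD') hMD'
    set 𝒵 := insert N ℳ with h𝒵
    have h𝒵𝒟 : ∀ M ∈ 𝒵, M ∈ 𝒟 := by
      intro M hM
      rcases Finset.mem_insert.1 hM with rfl | hM
      · exact hN𝒟
      · exact (Finset.mem_filter.1 (Finset.mem_filter.1 hM).1).1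
    have hℳN : ∀ M ∈ ℳ, Disjoint M N := fun M hM =>
      (Finset.mem_filter.1 (Finset.mem_filter.1 hM).1).2
    have hpair : ∀ M ∈ 𝒵, ∀ M' ∈ 𝒵, (M ∩ M').Nonempty → M = M' := by
      intro M hM M' hM' hne'
      rcases Finset.mem_insert.1 hM with rfl | hM
      · rcases Finset.mem_insert.1 hM' with rfl | hM'
        · rfl
        · exfalso
          obtain ⟨x, hx⟩ := hne'
          rw [Finset.mem_inter] at hx
          exact (Finset.disjoint_left.1 (hℳN M' hM')) hx.2 hx.1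
      · rcases Finset.mem_insert.1 hM' with rfl | hM'
        · exfalso
          obtain ⟨x, hx⟩ := hne'
          rw [Finset.mem_inter] at hx
          exact (Finset.disjoint_left.1 (hℳN M hM)) hx.1 hx.2
        · have a := Finset.mem_filter.1 hM
          have b := Finset.mem_filter.1 hM'
          have hu := hcl' M a.1 M' b.1 hne'
          have e1 := a.2 _ hu Finset.subset_union_left
          have e2 := b.2 _ hu Finset.subset_union_right
          rw [← e1, e2]
    have hne𝒵 : ∀ M ∈ 𝒵, M.Nonempty := fun M hM => (h𝒟 M (h𝒵𝒟 M hM)).1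
    -- leaves
    have hleaf : ∀ E ∈ leaves 𝒟, ∀ D ∈ 𝒟, (E ∩ D).Nonempty → E ⊆ D := by
      intro E hE D hD hne'
      rw [count_mem_leaves] at hE
      have h1 := (hcl E hE.1 D hD hne').1
      have h2 := hE.2 _ h1 Finset.inter_subset_left
      rw [← h2]
      exact Finset.inter_subset_right
    have hleafZ : ∀ E ∈ leaves 𝒟, ∃ M ∈ 𝒵, E ⊆ M := by
      intro E hE
      by_cases h : (E ∩ N).Nonempty
      · exact ⟨N, Finset.mem_insert_self _ _, hleaf E hE N hN𝒟 h⟩
      · have hEN : Disjoint E N := by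
          rw [Finset.disjoint_iff_inter_eq_empty]
          exact Finset.not_nonempty_iff_eq_empty.1 h
        obtain ⟨M, hM, hEM⟩ := hup E (Finset.mem_filter.2 ⟨(count_mem_leaves.1 hE).1, hEN⟩)
        exact ⟨M, Finset.mem_insert_of_mem hM, hEM⟩
    -- induction hypothesis
    have hIH : ∀ M ∈ 𝒵, wt w (covset adj (countSub 𝒟 M)) ≤
        (((leaves (countSub 𝒟 M)).card : ℝ) - 1) * c := by
      intro M hM
      have hM𝒟 := h𝒵𝒟 M hM
      apply ih
      · have hlt : (countSub 𝒟 M).card < 𝒟.card := by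
          apply Finset.card_lt_card
          refine Finset.ssubset_iff_subset_ne.2 ⟨Finset.filter_subset _ _, ?_⟩
          intro heq
          have hall : ∀ D ∈ 𝒟, D ⊆ M := by
            intro D hD
            rw [← heq] at hD
            exact (Finset.mem_filter.1 hD).2
          rcases Finset.mem_insert.1 hM with rfl | hM'
          · apply hNU
            apply Finset.Subset.antisymm (hsubU _ hN𝒟)
            rw [hU]
            exact Finset.sup_le hall
          · obtain ⟨x, hx⟩ := (h𝒟 N hN𝒟).1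
            exact (Finset.disjoint_left.1 (hℳN M hM')) (hall N hN𝒟 hx) hx
        omega
      · intro D hD
        exact h𝒟 D (Finset.mem_filter.1 hD).1
      · intro D₁ h₁ D₂ h₂ hne'
        obtain ⟨a1, a2⟩ := Finset.mem_filter.1 h₁
        obtain ⟨b1, b2⟩ := Finset.mem_filter.1 h₂
        obtain ⟨c1, c2⟩ := hcl D₁ a1 D₂ b1 hne'
        exact ⟨Finset.mem_filter.2 ⟨c1, Finset.inter_subset_left.trans a2⟩,
          Finset.mem_filter.2 ⟨c2, Finset.union_subset a2 b2⟩⟩
      · exact ⟨M, Finset.mem_filter.2 ⟨hM𝒟, Finset.Subset.refl _⟩⟩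
    -- the union of the maximal members
    set Z := 𝒵.sup id with hZ
    have hMZ : ∀ M ∈ 𝒵, M ⊆ Z := fun M hM => Finset.le_sup (f := id) hM
    have hZR : Z ⊆ R := by
      rw [hZ]
      exact Finset.sup_le fun M hM => (h𝒟 M (h𝒵𝒟 M hM)).2.1
    have hmemZ : ∀ x ∈ Z, ∃ M ∈ 𝒵, x ∈ M := by
      intro x hx
      rw [hZ, Finset.mem_sup] at hx
      exact hx
    have hNZ : N ∈ 𝒵 := Finset.mem_insert_self _ _
    have hZne : Z.Nonempty := (h𝒟 N hN𝒟).1.mono (hMZ N hNZ)
    have hZc := hR Z hZR hZne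
    -- inclusion
    have hincl : covset adj 𝒟 ⊆ 𝒵.biUnion (fun M => covset adj (countSub 𝒟 M)) ∪
        (Z ∩ 𝒵.biUnion (fun M => Nout adj M)) := by
      intro x hx
      obtain ⟨E, hE, hxE, D, hD, hDE, hxD⟩ := count_mem_covset.1 hx
      have hE𝒟 := (count_mem_leaves.1 hE).1
      obtain ⟨ME, hME, hEME⟩ := hleafZ E hE
      have hxZ : x ∈ Z := hMZ ME hME (hEME hxE)
      rw [Finset.mem_union, Finset.mem_biUnion]
      -- a member of `𝒵` containing `D`
      have hgen : ∀ M ∈ 𝒵, D ⊆ M → (∃ a ∈ 𝒵, x ∈ covset adj (countSub 𝒟 a)) ∨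
          x ∈ Z ∩ 𝒵.biUnion (fun M => Nout adj M) := by
        intro M hM hDM
        by_cases hxM : x ∈ M
        · left
          refine ⟨M, hM, count_mem_covset.2 ⟨E, ?_, hxE, D, ?_, hDE, hxD⟩⟩
          · exact count_leaf_sub hE (hleaf E hE M (h𝒵𝒟 M hM) ⟨x, Finset.mem_inter.2 ⟨hxE, hxM⟩⟩)
          · exact Finset.mem_filter.2 ⟨hD, hDM⟩
        · right
          rw [Finset.mem_inter, Finset.mem_biUnion]
          refine ⟨hxZ, M, hM, ?_⟩
          rw [count_mem_nout] at hxD ⊢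
          obtain ⟨-, s, hs, hsx⟩ := hxD
          exact ⟨hxM, s, hDM hs, hsx⟩
      by_cases h1 : (D ∩ N).Nonempty
      · by_cases h2 : D ⊆ N
        · exact hgen N hNZ h2
        · -- `D ∪ N = U`
          obtain ⟨hDN, hDuN⟩ := hcl D hD N hN𝒟 h1
          have hDuU : D ∪ N = U := by
            apply hNmax _ hDuN Finset.subset_union_right
            intro h
            apply h2
            rw [← h]
            exact Finset.subset_union_left
          have hEN : E ⊆ N := by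
            by_contra hcon
            have hdis : ¬ (E ∩ N).Nonempty := fun h => hcon (hleaf E hE N hN𝒟 h)
            have hxU : x ∈ D ∪ N := by rw [hDuU]; exact hsubU E hE𝒟 hxE
            rcases Finset.mem_union.1 hxU with h | h
            · exact (Finset.disjoint_left.1 hDE) h hxE
            · exact hdis ⟨x, Finset.mem_inter.2 ⟨hxE, h⟩⟩
          left
          refine ⟨N, hNZ, count_mem_covset.2 ⟨E, count_leaf_sub hE hEN, hxE, D ∩ N, ?_, ?_, ?_⟩⟩
          · exact Finset.mem_filter.2 ⟨hDN, Finset.inter_subset_right⟩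
          · exact hDE.mono_left Finset.inter_subset_left
          · exact count_nout_inter hw (h𝒟 D hD).2.2 (h𝒟 N hN𝒟).2.2 (h𝒟 _ hDN).2.2
              (h𝒟 _ hDuN).2.2 hxD (hEN hxE)
      · have hDN : Disjoint D N := by
          rw [Finset.disjoint_iff_inter_eq_empty]
          exact Finset.not_nonempty_iff_eq_empty.1 h1
        obtain ⟨M, hM, hDM⟩ := hup D (Finset.mem_filter.2 ⟨hD, hDN⟩)
        exact hgen M (Finset.mem_insert_of_mem hM) hDM
    -- weights
    have hw1 : wt w (Z ∩ 𝒵.biUnion (fun M => Nout adj M)) + wt w (Nout adj Z) ≤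
        (𝒵.card : ℝ) * c := by
      have hdis : Disjoint (Z ∩ 𝒵.biUnion (fun M => Nout adj M)) (Nout adj Z) := by
        rw [Finset.disjoint_left]
        intro y hy hy'
        exact (count_mem_nout.1 hy').1 (Finset.mem_inter.1 hy).1
      rw [← count_wt_disj hdis]
      have hsub : Z ∩ 𝒵.biUnion (fun M => Nout adj M) ∪ Nout adj Z ⊆
          𝒵.biUnion (fun M => Nout adj M) := by
        intro y hy
        rcases Finset.mem_union.1 hy with hy | hy
        · exact (Finset.mem_inter.1 hy).2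
        · obtain ⟨hy1, s, hs, hsy⟩ := count_mem_nout.1 hy
          obtain ⟨M, hM, hsM⟩ := hmemZ s hs
          rw [Finset.mem_biUnion]
          exact ⟨M, hM, count_mem_nout.2 ⟨fun h => hy1 (hMZ M hM h), s, hsM, hsy⟩⟩
      refine (count_wt_mono hw hsub).trans ((count_wt_biUnion_le hw _ _).trans ?_)
      rw [Finset.sum_congr rfl fun M hM => (h𝒟 M (h𝒵𝒟 M hM)).2.2]
      simp
    have hw2 : wt w (𝒵.biUnion (fun M => covset adj (countSub 𝒟 M))) ≤
        ((∑ M ∈ 𝒵, ((leaves (countSub 𝒟 M)).card : ℝ)) - (𝒵.card : ℝ)) * c := by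
      refine (count_wt_biUnion_le hw _ _).trans ((Finset.sum_le_sum hIH).trans_eq ?_)
      rw [← Finset.sum_mul, Finset.sum_sub_distrib]
      simp
    have hw3 : (∑ M ∈ 𝒵, ((leaves (countSub 𝒟 M)).card : ℝ)) ≤ (leaves 𝒟).card := by
      have h1 : (𝒵.biUnion (fun M => leaves (countSub 𝒟 M))).card =
          ∑ M ∈ 𝒵, (leaves (countSub 𝒟 M)).card := by
        apply Finset.card_biUnion
        intro M hM M' hM' hne'
        rw [Function.onFun, Finset.disjoint_left]
        intro E hE hE'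
        obtain ⟨a1, a2⟩ := count_sub_leaf hE
        obtain ⟨-, b2⟩ := count_sub_leaf hE'
        obtain ⟨x, hx⟩ := (h𝒟 E (count_mem_leaves.1 a1).1).1
        exact hne' (hpair M hM M' hM' ⟨x, Finset.mem_inter.2 ⟨a2 hx, b2 hx⟩⟩)
      have h2 : (𝒵.biUnion (fun M => leaves (countSub 𝒟 M))) ⊆ leaves 𝒟 := by
        intro E hE
        obtain ⟨M, -, hE'⟩ := Finset.mem_biUnion.1 hE
        exact (count_sub_leaf hE').1
      have h3 := Finset.card_le_card h2
      rw [h1] at h3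
      exact_mod_cast h3
    have h4 := (count_wt_mono hw hincl).trans (count_wt_union_le hw _ _)
    have h5 := mul_le_mul_of_nonneg_right hw3 hc0
    linarith

end Count

theorem count : Stmt_Count := by
  intro V _ _ adj w c 𝒟 R hw h𝒟 hcl hR hne
  exact count_ind adj w c R hw hR 𝒟.card 𝒟 le_rfl h𝒟 hcl hne

end Pool.MDP
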