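import Mathlib

/-!
# Connectivity keeping paths in digraphs: separations, weights

Architect helper56. Paper proof: /team-store/MDP_paper.md
-/

open Finset

noncomputable section

namespace Pool.MDP

variable {V : Type} [Fintype V] [DecidableEq V]

/-- `(A, B)` is a separation: `A`, `B` nonempty and disjoint, no arc from `A` to `B`. -/
def Sep (adj : V → V → Prop) (A B : Finset V) : Prop :=
  A.Nonempty ∧ B.Nonempty ∧ Disjoint A B ∧ ∀ a ∈ A, ∀ b ∈ B, ¬ adj a b

/-- the separator `T` of a separation `(A, B)` -/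
def TT (A B : Finset V) : Finset V := (A ∪ B)ᶜ

/-- weight of a set -/
def wt (w : V → ℝ) (S : Finset V) : ℝ := ∑ v ∈ S, w v

/-- a separation of minimum weight `c` -/
def Tight (adj : V → V → Prop) (w : V → ℝ) (c : ℝ) (A B : Finset V) : Prop :=
  Sep adj A B ∧ wt w (TT A B) = c

open Classical in
/-- the vertices covered by the separators of weight `c` -/
def Cov (adj : V → V → Prop) (w : V → ℝ) (c : ℝ) : Finset V :=
  univ.filter fun x => ∃ A B, Tight adj w c A B ∧ x ∈ TT A B

open Classical in
/-- the out-neighbours outside of `S` -/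
def Nout (adj : V → V → Prop) (S : Finset V) : Finset V :=
  univ.filter fun x => x ∉ S ∧ ∃ s ∈ S, adj s x

/-- the reversed digraph -/
def rev (adj : V → V → Prop) : V → V → Prop := fun a b => adj b a

open Classical in
/-- inclusion-minimal members -/
def leaves (𝒟 : Finset (Finset V)) : Finset (Finset V) :=
  𝒟.filter fun E => ∀ D ∈ 𝒟, D ⊆ E → D = E

open Classical in
/-- the vertices of leaves which are covered by some member disjoint from the leaf -/
def covset (adj : V → V → Prop) (𝒟 : Finset (Finset V)) : Finset V :=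
  univ.filter fun x => ∃ E ∈ leaves 𝒟, x ∈ E ∧ ∃ D ∈ 𝒟, Disjoint D E ∧ x ∈ Nout adj D

/-- `k`-connected, path version, exactly as in the frozen statement -/
def PathConn {n : ℕ} (adj : Fin n → Fin n → Prop) (k : ℕ) (W : Set (Fin n)) : Prop :=
  k + 1 ≤ W.ncard ∧
    ∀ a ∈ W, ∀ b ∈ W, a ≠ b →
      ∃ p : Fin k → List (Fin n), Function.Injective p ∧
        (∀ i, (p i).head? = some a ∧ (p i).getLast? = some b ∧ (p i).Nodup ∧
          (∀ v ∈ p i, v ∈ W) ∧
          ∀ (j : ℕ) (u w : Fin n), (p i)[j]? = some u → (p i)[j+1]? = some w → adj u w) ∧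
        ∀ i j, i ≠ j → ∀ v, v ∈ p i → v ∈ p j → v = a ∨ v = b

/-- `k`-connected, separator version -/
def SepConn (adj : V → V → Prop) (k : ℕ) (W : Finset V) : Prop :=
  k + 1 ≤ W.card ∧ ∀ A B : Finset V, A ⊆ W → B ⊆ W → Sep adj A B → k ≤ (W \ (A ∪ B)).card

end Pool.MDP
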