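import Pool.Agent.MDP.Stmts

/-!
Module Fin: assembly.
-/

open Finset

noncomputable section

namespace Pool.MDP

theorem fin (hg : Stmt_Good) (h1 : Stmt_Men1) (h2 : Stmt_Men2) : Stmt_Final := by
  intro m k n hm hk adj hirr hconn hdeg
  have hs : SepConn adj k (univ : Finset (Fin n)) := by
    apply h1
    rw [Finset.coe_univ]
    exact hconn
  obtain ⟨P, hP1, hP2, hP3⟩ := hg m k n hm hk adj hirr hs hdeg
  refine ⟨P, hP1, hP2, ?_⟩
  have := h2 n k adj _ hk hP3
  have e : ((univ \ univ.image P : Finset (Fin n)) : Set (Fin n)) = (Set.range P)ᶜ := by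
    ext x
    simp
  rw [e] at this
  exact this

end Pool.MDP
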