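import Pool.Agent.MDP.Stmts

/-!
# Module Good (section 8): the theorem, separator version
-/

open Finset

noncomputable section

namespace Pool.MDP

/-- greedy path -/
theorem good_path {V : Type} [DecidableEq V] (adj : V → V → Prop) [DecidableRel adj]
    (Y : Finset V) (m : ℕ) (hY : Y.Nonempty) (hirr : ∀ v, ¬ adj v v)
    (hdeg : ∀ v ∈ Y, m - 1 ≤ (Y.filter (adj v)).card) :
    ∀ j, j ≤ m → ∃ f : ℕ → V, (∀ i, f i ∈ Y) ∧ (∀ i < j, ∀ i' < j, f i = f i' → i = i') ∧
      ∀ i, i + 1 < j → adj (f i) (f (i + 1)) := by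
  intro j
  induction j with
  | zero =>
    intro _
    obtain ⟨y, hy⟩ := hY
    exact ⟨fun _ => y, fun _ => hy, fun i hi => absurd hi (Nat.not_lt_zero i),
      fun i hi => absurd hi (Nat.not_lt_zero _)⟩
  | succ j ih =>
    intro hj
    obtain ⟨f, h1, h2, h3⟩ := ih (by omega)
    rcases Nat.eq_zero_or_pos j with h0 | h0
    · subst h0
      refine ⟨f, h1, fun i hi i' hi' _ => by omega, fun i hi => by omega⟩
    · obtain ⟨j', rfl⟩ : ∃ j', j = j' + 1 := ⟨j - 1, by omega⟩
      have hx : ∃ x ∈ Y.filter (adj (f j')), x ∉ ((range (j' + 1)).image f).erase (f j') := by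
        by_contra hcon
        push Not at hcon
        have h4 : (Y.filter (adj (f j'))).card ≤
            (((range (j' + 1)).image f).erase (f j')).card := card_le_card hcon
        have h5 : (((range (j' + 1)).image f).erase (f j')).card =
            ((range (j' + 1)).image f).card - 1 :=
          card_erase_of_mem (mem_image_of_mem f (self_mem_range_succ j'))
        have h6 : ((range (j' + 1)).image f).card ≤ j' + 1 := by
          have := card_image_le (s := range (j' + 1)) (f := f)
          rwa [card_range] at this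
        have h7 := hdeg (f j') (h1 j')
        omega
      obtain ⟨x, hx1, hx2⟩ := hx
      rw [mem_filter] at hx1
      have hx3 : ∀ i < j' + 1, f i ≠ x := by
        intro i hi hix
        apply hx2
        rw [mem_erase]
        refine ⟨?_, mem_image.2 ⟨i, mem_range.2 hi, hix⟩⟩
        intro h8
        rw [h8] at hx1
        exact hirr _ hx1.2
      refine ⟨Function.update f (j' + 1) x, ?_, ?_, ?_⟩
      · intro i
        by_cases hi : i = j' + 1
        · rw [hi, Function.update_self]
          exact hx1.1
        · rw [Function.update_of_ne hi]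
          exact h1 i
      · intro i hi i' hi' h8
        by_cases hi2 : i = j' + 1
        · by_cases hi2' : i' = j' + 1
          · rw [hi2, hi2']
          · rw [hi2, Function.update_self, Function.update_of_ne hi2'] at h8
            exact absurd h8.symm (hx3 i' (by omega))
        · by_cases hi2' : i' = j' + 1
          · rw [hi2', Function.update_self, Function.update_of_ne hi2] at h8
            exact absurd h8 (hx3 i (by omega))
          · rw [Function.update_of_ne hi2, Function.update_of_ne hi2'] at h8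
            exact h2 i (by omega) i' (by omega) h8
      · intro i hi
        have hi2 : i ≠ j' + 1 := by omega
        rw [Function.update_of_ne hi2]
        by_cases hi3 : i + 1 = j' + 1
        · have hi4 : i = j' := by omega
          rw [hi3, Function.update_self, hi4]
          exact hx1.2
        · rw [Function.update_of_ne hi3]
          exact h3 i (by omega)

/-- greedy path inside a fragment -/
theorem good_frag {V : Type} [Fintype V] [DecidableEq V] (adj : V → V → Prop)
    (hirr : ∀ v, ¬ adj v v) (m K : ℕ) (A T H : Finset V) (hA : A.Nonempty)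
    (hdeg : ∀ v, 2 * K + m - 1 ≤ Set.ncard {w | adj v w}) (hm : 1 ≤ m)
    (hAT : ∀ a ∈ A, ∀ b, adj a b → b ∈ A ∪ T) (hT : T.card ≤ K) (hH : (A ∩ H).card ≤ K) :
    ∃ P : Fin m → V, Function.Injective P ∧
      (∀ i j : Fin m, i.val + 1 = j.val → adj (P i) (P j)) ∧ ∀ i, P i ∈ A \ H := by
  classical
  have hdeg' : ∀ v, 2 * K + m - 1 ≤ (univ.filter (adj v)).card := by
    intro v
    have h1 := hdeg v
    have h2 : Set.ncard {w | adj v w} = (univ.filter (adj v)).card := by
      rw [← Set.ncard_coe_finset]
      congr 1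
      ext w
      simp
    rw [h2] at h1
    exact h1
  have hY : (A \ H).Nonempty := by
    obtain ⟨a, ha⟩ := hA
    have h1 : insert a (univ.filter (adj a)) ⊆ A ∪ T := by
      intro b hb
      rw [mem_insert, mem_filter] at hb
      rcases hb with rfl | ⟨_, hb⟩
      · exact mem_union_left _ ha
      · exact hAT a ha b hb
    have h2 := card_le_card h1
    have h3 : a ∉ univ.filter (adj a) := by
      rw [mem_filter]
      exact fun h => hirr a h.2
    rw [card_insert_of_notMem h3] at h2
    have h4 := card_union_le A T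
    have h5 := hdeg' a
    have h6 := card_sdiff_add_card_inter A H
    rw [← card_pos]
    omega
  obtain ⟨f, h1, h2, h3⟩ := good_path adj (A \ H) m hY hirr (by
    intro v hv
    rw [mem_sdiff] at hv
    have h1 : univ.filter (adj v) ⊆ ((A \ H).filter (adj v)) ∪ (T ∪ (A ∩ H)) := by
      intro b hb
      rw [mem_filter] at hb
      have h2 := hAT v hv.1 b hb.2
      rw [mem_union] at h2
      by_cases hbT : b ∈ T
      · exact mem_union_right _ (mem_union_left _ hbT)
      · have hbA : b ∈ A := h2.resolve_right hbT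
        by_cases hbH : b ∈ H
        · exact mem_union_right _ (mem_union_right _ (mem_inter.2 ⟨hbA, hbH⟩))
        · exact mem_union_left _ (mem_filter.2 ⟨mem_sdiff.2 ⟨hbA, hbH⟩, hb.2⟩)
    have h2 := card_le_card h1
    have h3 := card_union_le ((A \ H).filter (adj v)) (T ∪ (A ∩ H))
    have h4 := card_union_le T (A ∩ H)
    have h5 := hdeg' v
    omega) m le_rfl
  refine ⟨fun i => f i.val, ?_, ?_, fun i => h1 _⟩
  · intro i i' h4
    exact Fin.ext (h2 i.val i.2 i'.val i'.2 h4)
  · intro i j hij
    have h4 := h3 i.val (by rw [hij]; exact j.2)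
    rw [hij] at h4
    exact h4

/-- the end: a path of light vertices -/
theorem good_end {n : ℕ} (m k : ℕ) (hm : 1 ≤ m) (hk : 1 ≤ k) (adj : Fin n → Fin n → Prop)
    (hirr : ∀ v, ¬ adj v v)
    (hdeg : ∀ v, 2 * k * m + m - 1 ≤ Set.ncard {w | adj v w}) (w : Fin n → ℝ) (θ : ℝ)
    (hθm : (m : ℝ) * θ < 1) (hw1 : ∀ v, w v ≤ 1)
    (hsep : ∀ A B, Sep adj A B → (k : ℝ) ≤ wt w (TT A B))
    (P : Fin m → Fin n) (hP : Function.Injective P) (hPw : ∀ i, w (P i) ≤ θ) :
    SepConn adj k (univ \ univ.image P) := by
  classical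
  constructor
  · have h0 : 0 < m := hm
    set v := P ⟨0, h0⟩
    have h1 := hdeg v
    have h2 : Set.ncard {w | adj v w} + 1 ≤ n := by
      have h3 : Set.ncard (insert v {w | adj v w}) = Set.ncard {w | adj v w} + 1 :=
        Set.ncard_insert_of_notMem (fun h => hirr v h) (Set.toFinite _)
      have h4 : Set.ncard (insert v {w | adj v w}) ≤ n := by
        have h5 := Set.ncard_le_ncard (Set.subset_univ (insert v {w | adj v w}))
          (Set.toFinite _)
        rw [Set.ncard_univ, Nat.card_fin] at h5
        exact h5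
      omega
    have h3 : (univ \ univ.image P).card = n - m := by
      rw [card_sdiff_of_subset (subset_univ _), card_univ, Fintype.card_fin,
        card_image_of_injective _ hP, card_univ, Fintype.card_fin]
    rw [h3]
    have h4 : k * 1 ≤ k * m := Nat.mul_le_mul_left k hm
    have h5 : 2 * k * m = 2 * (k * m) := by ring
    omega
  · intro A B hA hB hS
    have h1 := hsep A B hS
    have h2 : univ.image P ⊆ TT A B := by
      intro x hx
      rw [TT, mem_compl, mem_union, not_or]
      constructor
      · intro h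
        exact (mem_sdiff.1 (hA h)).2 hx
      · intro h
        exact (mem_sdiff.1 (hB h)).2 hx
    have h3 : (univ \ univ.image P) \ (A ∪ B) = TT A B \ univ.image P := by
      ext x
      simp only [mem_sdiff, mem_univ, true_and, TT, mem_compl]
      tauto
    have h4 : wt w (TT A B \ univ.image P) + wt w (univ.image P) = wt w (TT A B) :=
      sum_sdiff h2
    have h5 : wt w (univ.image P) ≤ m * θ := by
      unfold wt
      rw [sum_image (fun i _ j _ h => hP h)]
      calc ∑ i, w (P i) ≤ ∑ _i : Fin m, θ := sum_le_sum fun i _ => hPw i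
        _ = m * θ := by rw [sum_const, card_univ, Fintype.card_fin, nsmul_eq_mul]
    have h6 : wt w (TT A B \ univ.image P) ≤ ((TT A B \ univ.image P).card : ℝ) := by
      unfold wt
      calc ∑ v ∈ TT A B \ univ.image P, w v ≤ ∑ _v ∈ TT A B \ univ.image P, (1 : ℝ) :=
            sum_le_sum fun v _ => hw1 v
        _ = _ := by rw [sum_const, nsmul_eq_mul, mul_one]
    rw [h3]
    have h7 : (k : ℝ) - 1 < ((TT A B \ univ.image P).card : ℝ) := by linarith
    have h8 : (k : ℝ) < (((TT A B \ univ.image P).card + 1 : ℕ) : ℝ) := by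
      push_cast
      linarith
    have h9 : k < (TT A B \ univ.image P).card + 1 := by exact_mod_cast h8
    omega

/-- section 8 -/
theorem good (hl : Stmt_LFL) (hw : Stmt_MinW) : Stmt_Good := by
  classical
  intro m k n hm hk adj hirr hconn hdeg
  set θ : ℝ := 2 * k / (2 * k * m + 1) with hθ
  have hmR : (1 : ℝ) ≤ m := by exact_mod_cast hm
  have hkR : (1 : ℝ) ≤ k := by exact_mod_cast hk
  have hden : (0 : ℝ) < 2 * k * m + 1 := by positivity
  have hθpos : 0 < θ := by positivity
  have hθ1 : θ ≤ 1 := by
    rw [hθ, div_le_one hden]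
    nlinarith
  have hθm : (m : ℝ) * θ < 1 := by
    rw [hθ, ← mul_div_assoc, div_lt_one hden]
    nlinarith
  -- sizes
  have hsize : ∀ c : ℕ, (c : ℝ) * θ ≤ k → c ≤ k * m := by
    intro c hc
    rw [hθ, ← mul_div_assoc, div_le_iff₀ hden] at hc
    have h1 : (c : ℝ) * 2 ≤ 2 * k * m + 1 := by
      have h2 : (k : ℝ) * ((c : ℝ) * 2) ≤ k * (2 * k * m + 1) := by linarith
      exact le_of_mul_le_mul_left h2 (by linarith)
    have h3 : c * 2 ≤ 2 * k * m + 1 := by exact_mod_cast h1
    have h4 : 2 * k * m = 2 * (k * m) := by ring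
    omega
  set F : Finset (Finset (Fin n)) :=
    ((univ : Finset (Finset (Fin n) × Finset (Fin n))).filter (fun p => Sep adj p.1 p.2)).image
      (fun p => TT p.1 p.2) with hF
  have hFmem : ∀ A B, Sep adj A B → TT A B ∈ F := by
    intro A B h
    rw [hF, mem_image]
    exact ⟨(A, B), mem_filter.2 ⟨mem_univ _, h⟩, rfl⟩
  have hFcard : ∀ T ∈ F, (k : ℝ) ≤ (T.card : ℝ) := by
    intro T hT
    rw [hF, mem_image] at hT
    obtain ⟨p, hp, rfl⟩ := hT
    rw [mem_filter] at hp
    have h1 := hconn.2 p.1 p.2 (subset_univ _) (subset_univ _) hp.2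
    have h2 : univ \ (p.1 ∪ p.2) = TT p.1 p.2 := by
      rw [TT, compl_eq_univ_sdiff]
    rw [h2] at h1
    exact_mod_cast h1
  obtain ⟨w, hw1, hw2, hw3⟩ := hw (Fin n) F k θ hθ1 hFcard
  have hsep : ∀ A B, Sep adj A B → (k : ℝ) ≤ wt w (TT A B) := fun A B h => hw2 _ (hFmem A B h)
  have hwpos : ∀ v, 0 < w v := fun v => lt_of_lt_of_le hθpos (hw1 v).1
  have hwt_card : ∀ S : Finset (Fin n), (S.card : ℝ) * θ ≤ wt w S := by
    intro S
    unfold wt
    calc (S.card : ℝ) * θ = ∑ _v ∈ S, θ := by rw [sum_const, nsmul_eq_mul]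
      _ ≤ ∑ v ∈ S, w v := sum_le_sum fun v _ => (hw1 v).1
  have hKm : 2 * k * m = 2 * (k * m) := by ring
  set H : Finset (Fin n) := univ.filter (fun v => θ < w v) with hH
  have hHlight : ∀ v, v ∉ H → w v ≤ θ := by
    intro v hv
    by_contra h
    exact hv (mem_filter.2 ⟨mem_univ _, not_le.1 h⟩)
  -- it suffices to find a path of light vertices
  suffices hmain : ∃ P : Fin m → Fin n, Function.Injective P ∧
      (∀ i j : Fin m, i.val + 1 = j.val → adj (P i) (P j)) ∧ ∀ i, P i ∉ H by
    obtain ⟨P, hP1, hP2, hP3⟩ := hmain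
    exact ⟨P, hP1, hP2, good_end m k hm hk adj hirr (fun v => (hdeg v).1) w θ hθm
      (fun v => (hw1 v).2) hsep P hP1 (fun i => hHlight _ (hP3 i))⟩
  have hne : Nonempty (Fin n) := by
    have h1 := hconn.1
    rw [card_univ, Fintype.card_fin] at h1
    exact ⟨⟨0, by omega⟩⟩
  by_cases htight : ∃ A B, Tight adj w k A B
  · have hHcov : H ⊆ Cov adj w k := by
      intro v hv
      rw [hH, mem_filter] at hv
      obtain ⟨T, hT, hvT, hTw⟩ := hw3 v hv.2
      rw [hF, mem_image] at hT
      obtain ⟨p, hp, rfl⟩ := hT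
      rw [mem_filter] at hp
      rw [Cov, mem_filter]
      exact ⟨mem_univ _, p.1, p.2, ⟨hp.2, hTw⟩, hvT⟩
    have hAH : ∀ A : Finset (Fin n), wt w (A ∩ Cov adj w k) ≤ k → (A ∩ H).card ≤ k * m := by
      intro A hA
      apply hsize
      refine (hwt_card _).trans (le_trans ?_ hA)
      unfold wt
      exact sum_le_sum_of_subset_of_nonneg (inter_subset_inter_left hHcov)
        (fun v _ _ => (hwpos v).le)
    obtain ⟨A, B, hAB, hcase⟩ := hl (Fin n) adj w k hwpos hsep htight
    obtain ⟨⟨hAne, hBne, hdisj, hno⟩, hTw⟩ := hAB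
    have hTcard : (TT A B).card ≤ k * m := by
      apply hsize
      rw [← hTw]
      exact hwt_card _
    rcases hcase with hcase | hcase
    · obtain ⟨P, hP1, hP2, hP3⟩ := good_frag adj hirr m (k * m) A (TT A B) H hAne
        (fun v => by rw [← hKm]; exact (hdeg v).1) hm (by
          intro a ha b hab
          rw [TT, mem_union, mem_compl, mem_union, not_or]
          by_cases hb : b ∈ A
          · exact Or.inl hb
          · exact Or.inr ⟨hb, fun hbB => hno a ha b hbB hab⟩) hTcard (hAH A hcase)
      exact ⟨P, hP1, hP2, fun i => (mem_sdiff.1 (hP3 i)).2⟩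
    · obtain ⟨P, hP1, hP2, hP3⟩ := good_frag (rev adj) hirr m (k * m) B (TT A B) H hBne
        (fun v => by rw [← hKm]; exact (hdeg v).2) hm (by
          intro b hb a hab
          rw [TT, mem_union, mem_compl, mem_union, not_or]
          by_cases ha : a ∈ B
          · exact Or.inl ha
          · exact Or.inr ⟨fun haA => hno a haA b hb hab, ha⟩) hTcard (hAH B hcase)
      refine ⟨fun i => P i.rev, ?_, ?_, fun i => (mem_sdiff.1 (hP3 i.rev)).2⟩
      · intro i j hij
        exact Fin.rev_injective (hP1 hij)
      · intro i j hij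
        have h1 : (j.rev).val + 1 = (i.rev).val := by
          rw [Fin.val_rev, Fin.val_rev]
          omega
        exact hP2 j.rev i.rev h1
  · have hHempty : H = ∅ := by
      rw [eq_empty_iff_forall_notMem]
      intro v hv
      rw [hH, mem_filter] at hv
      obtain ⟨T, hT, hvT, hTw⟩ := hw3 v hv.2
      rw [hF, mem_image] at hT
      obtain ⟨p, hp, rfl⟩ := hT
      rw [mem_filter] at hp
      exact htight ⟨p.1, p.2, hp.2, hTw⟩
    obtain ⟨P, hP1, hP2, hP3⟩ := good_frag adj hirr m (k * m) univ ∅ H univ_nonempty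
      (fun v => by rw [← hKm]; exact (hdeg v).1) hm (fun a _ b _ => mem_union_left _ (mem_univ b))
      (by simp) (by rw [hHempty]; simp)
    exact ⟨P, hP1, hP2, fun i => (mem_sdiff.1 (hP3 i)).2⟩

end Pool.MDP
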