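import Pool.Agent.MDP.Stmts

set_option autoImplicit false

/-!
# The light fragment lemma
-/

open Finset

noncomputable section

namespace Pool.MDP

variable {V : Type} [Fintype V] [DecidableEq V]

lemma lfl_wt_mono (w : V → ℝ) (hw : ∀ v, 0 < w v) {S T : Finset V} (h : S ⊆ T) :
    wt w S ≤ wt w T :=
  Finset.sum_le_sum_of_subset_of_nonneg h fun i _ _ => (hw i).le

lemma lfl_wt_nonneg (w : V → ℝ) (hw : ∀ v, 0 < w v) (S : Finset V) : 0 ≤ wt w S :=
  Finset.sum_nonneg fun i _ => (hw i).le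

lemma lfl_wt_ui (w : V → ℝ) (S T : Finset V) :
    wt w (S ∪ T) + wt w (S ∩ T) = wt w S + wt w T :=
  Finset.sum_union_inter

lemma lfl_wt_union_le (w : V → ℝ) (hw : ∀ v, 0 < w v) (S T : Finset V) :
    wt w (S ∪ T) ≤ wt w S + wt w T := by
  have := lfl_wt_ui w S T
  have := lfl_wt_nonneg w hw (S ∩ T)
  linarith

lemma lfl_wt_compl (w : V → ℝ) (S : Finset V) : wt w Sᶜ = wt w univ - wt w S := by
  have := Finset.sum_compl_add_sum S w
  unfold wt
  linarith

lemma lfl_wt_TT (w : V → ℝ) {A B : Finset V} (h : Disjoint A B) :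
    wt w (TT A B) = wt w univ - wt w A - wt w B := by
  unfold TT
  rw [lfl_wt_compl]
  have h1 : wt w (A ∪ B) = wt w A + wt w B := Finset.sum_union h
  rw [h1]; ring

lemma lfl_sep_inter {adj : V → V → Prop} {A1 B1 A2 B2 : Finset V} (h1 : Sep adj A1 B1)
    (h2 : Sep adj A2 B2) (h : (A1 ∩ A2).Nonempty) : Sep adj (A1 ∩ A2) (B1 ∪ B2) := by
  refine ⟨h, h1.2.1.mono Finset.subset_union_left, ?_, ?_⟩
  · rw [Finset.disjoint_left]
    intro x hx hx'
    rw [Finset.mem_inter] at hx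
    rcases Finset.mem_union.1 hx' with h' | h'
    · exact Finset.disjoint_left.1 h1.2.2.1 hx.1 h'
    · exact Finset.disjoint_left.1 h2.2.2.1 hx.2 h'
  · intro a ha b hb
    rw [Finset.mem_inter] at ha
    rcases Finset.mem_union.1 hb with h' | h'
    · exact h1.2.2.2 a ha.1 b h'
    · exact h2.2.2.2 a ha.2 b h'

lemma lfl_sep_union {adj : V → V → Prop} {A1 B1 A2 B2 : Finset V} (h1 : Sep adj A1 B1)
    (h2 : Sep adj A2 B2) (h : (B1 ∩ B2).Nonempty) : Sep adj (A1 ∪ A2) (B1 ∩ B2) := by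
  refine ⟨h1.1.mono Finset.subset_union_left, h, ?_, ?_⟩
  · rw [Finset.disjoint_left]
    intro x hx hx'
    rw [Finset.mem_inter] at hx'
    rcases Finset.mem_union.1 hx with h' | h'
    · exact Finset.disjoint_left.1 h1.2.2.1 h' hx'.1
    · exact Finset.disjoint_left.1 h2.2.2.1 h' hx'.2
  · intro a ha b hb
    rw [Finset.mem_inter] at hb
    rcases Finset.mem_union.1 ha with h' | h'
    · exact h1.2.2.2 a h' b hb.1
    · exact h2.2.2.2 a h' b hb.2

/-- both corners of crossing tight separations are tight -/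
lemma lfl_corner {adj : V → V → Prop} {w : V → ℝ} {c : ℝ}
    (hs : ∀ A B, Sep adj A B → c ≤ wt w (TT A B)) {A1 B1 A2 B2 : Finset V}
    (h1 : Tight adj w c A1 B1) (h2 : Tight adj w c A2 B2) (hA : (A1 ∩ A2).Nonempty)
    (hB : (B1 ∩ B2).Nonempty) :
    Tight adj w c (A1 ∩ A2) (B1 ∪ B2) ∧ Tight adj w c (A1 ∪ A2) (B1 ∩ B2) := by
  have s1 := lfl_sep_inter h1.1 h2.1 hA
  have s2 := lfl_sep_union h1.1 h2.1 hB
  have e1 := hs _ _ s1
  have e2 := hs _ _ s2
  have t1 := h1.2
  have t2 := h2.2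
  rw [lfl_wt_TT w h1.1.2.2.1] at t1
  rw [lfl_wt_TT w h2.1.2.2.1] at t2
  have u1 := lfl_wt_ui w A1 A2
  have u2 := lfl_wt_ui w B1 B2
  have f1 := lfl_wt_TT w s1.2.2.1
  have f2 := lfl_wt_TT w s2.2.2.1
  refine ⟨⟨s1, ?_⟩, ⟨s2, ?_⟩⟩
  · rw [f1] at e1 ⊢
    rw [f2] at e2
    linarith
  · rw [f1] at e1
    rw [f2] at e2 ⊢
    linarith

/-- if the other corner is empty, the complement of the union is light -/
lemma lfl_light {adj : V → V → Prop} {w : V → ℝ} {c : ℝ}
    (hs : ∀ A B, Sep adj A B → c ≤ wt w (TT A B)) {A1 B1 A2 B2 : Finset V}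
    (h1 : Tight adj w c A1 B1) (h2 : Tight adj w c A2 B2) (hA : (A1 ∩ A2).Nonempty)
    (hB : ¬ (B1 ∩ B2).Nonempty) : wt w (A1 ∪ A2)ᶜ ≤ c := by
  have s1 := lfl_sep_inter h1.1 h2.1 hA
  have e1 := hs _ _ s1
  have t1 := h1.2
  have t2 := h2.2
  rw [lfl_wt_TT w h1.1.2.2.1] at t1
  rw [lfl_wt_TT w h2.1.2.2.1] at t2
  have u1 := lfl_wt_ui w A1 A2
  have u2 := lfl_wt_ui w B1 B2
  rw [lfl_wt_TT w s1.2.2.1] at e1
  rw [Finset.not_nonempty_iff_eq_empty] at hB
  have h0 : wt w (B1 ∩ B2) = 0 := by rw [hB]; exact Finset.sum_empty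
  rw [lfl_wt_compl]
  linarith

/-- the separator of a tight separation is the out-neighbourhood of its first part -/
lemma lfl_nout {adj : V → V → Prop} {w : V → ℝ} {c : ℝ} (hw : ∀ v, 0 < w v)
    (hs : ∀ A B, Sep adj A B → c ≤ wt w (TT A B)) {A B : Finset V}
    (h : Tight adj w c A B) : TT A B = Nout adj A := by
  classical
  ext x
  constructor
  · intro hx
    have hx' : x ∉ A ∧ x ∉ B := by
      simpa [TT] using hx
    unfold Nout
    rw [Finset.mem_filter]
    refine ⟨Finset.mem_univ _, hx'.1, ?_⟩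
    by_contra hcon
    push Not at hcon
    have hsep : Sep adj A (insert x B) := by
      refine ⟨h.1.1, Finset.insert_nonempty _ _, ?_, ?_⟩
      · rw [Finset.disjoint_left]
        intro y hy hy'
        rcases Finset.mem_insert.1 hy' with rfl | h'
        · exact hx'.1 hy
        · exact Finset.disjoint_left.1 h.1.2.2.1 hy h'
      · intro a ha b hb
        rcases Finset.mem_insert.1 hb with rfl | h'
        · exact hcon a ha
        · exact h.1.2.2.2 a ha b h'
    have e1 := hs _ _ hsep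
    have t1 := h.2
    rw [lfl_wt_TT w hsep.2.2.1] at e1
    rw [lfl_wt_TT w h.1.2.2.1] at t1
    have e2 : wt w (insert x B) = w x + wt w B := Finset.sum_insert hx'.2
    have := hw x
    linarith
  · intro hx
    unfold Nout at hx
    rw [Finset.mem_filter] at hx
    obtain ⟨-, hxA, s, hsA, hsx⟩ := hx
    unfold TT
    rw [Finset.mem_compl, Finset.mem_union]
    rintro (h' | h')
    · exact hxA h'
    · exact h.1.2.2.2 s hsA x h' hsx

lemma lfl_core (hc : Stmt_Count) (adj : V → V → Prop) (w : V → ℝ) (c : ℝ) (hw : ∀ v, 0 < w v)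
    (hs : ∀ A B, Sep adj A B → c ≤ wt w (TT A B))
    (hbig : ∀ A B, Tight adj w c A B →
      c < wt w (A ∩ Cov adj w c) ∧ c < wt w (B ∩ Cov adj w c))
    (A₀ B₀ : Finset V) (h0 : Tight adj w c A₀ B₀)
    (hF : ∃ F B, Tight adj w c F B ∧ Disjoint F A₀)
    (hE : ∀ E BE, Tight adj w c E BE → Disjoint E A₀ →
      (∀ A B, Tight adj w c A B → A ⊆ E → A = E) →
      (∀ A B, Tight adj w c A B → (A ∩ E).Nonempty → E ⊆ A) ∧
      (∀ A B, Tight adj w c A B → Disjoint A E → A₀ ⊆ A → A = A₀)) : False := by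
  classical
  have hc0 : 0 ≤ c := by
    rw [← h0.2]; exact lfl_wt_nonneg w hw _
  have hbigA : ∀ A B, Tight adj w c A B → c < wt w A := fun A B h =>
    lt_of_lt_of_le (hbig A B h).1 (lfl_wt_mono w hw Finset.inter_subset_left)
  let 𝒟 : Finset (Finset V) :=
    Finset.univ.filter fun D => (∃ B, Tight adj w c D B) ∧ Disjoint D A₀
  have hD : ∀ D, D ∈ 𝒟 ↔ (∃ B, Tight adj w c D B) ∧ Disjoint D A₀ := by
    intro D
    simp [𝒟]
  have hne : 𝒟.Nonempty := by
    obtain ⟨F, B, hFB, hFA⟩ := hF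
    exact ⟨F, (hD F).2 ⟨⟨B, hFB⟩, hFA⟩⟩
  have hclosed : ∀ D₁ ∈ 𝒟, ∀ D₂ ∈ 𝒟, (D₁ ∩ D₂).Nonempty → D₁ ∩ D₂ ∈ 𝒟 ∧ D₁ ∪ D₂ ∈ 𝒟 := by
    intro D₁ h1 D₂ h2 hi
    obtain ⟨⟨B₁, t1⟩, d1⟩ := (hD D₁).1 h1
    obtain ⟨⟨B₂, t2⟩, d2⟩ := (hD D₂).1 h2
    have hB : (B₁ ∩ B₂).Nonempty := by
      by_contra hcon
      have hl := lfl_light hs t1 t2 hi hcon
      have hsub : A₀ ⊆ (D₁ ∪ D₂)ᶜ := by
        intro x hx
        rw [Finset.mem_compl, Finset.mem_union]
        rintro (h' | h')
        · exact Finset.disjoint_left.1 d1 h' hx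
        · exact Finset.disjoint_left.1 d2 h' hx
      have := lfl_wt_mono w hw hsub
      have := hbigA _ _ h0
      linarith
    obtain ⟨c1, c2⟩ := lfl_corner hs t1 t2 hi hB
    refine ⟨(hD _).2 ⟨⟨_, c1⟩, ?_⟩, (hD _).2 ⟨⟨_, c2⟩, ?_⟩⟩
    · exact d1.mono_left Finset.inter_subset_left
    · rw [Finset.disjoint_union_left]; exact ⟨d1, d2⟩
  have hout : ∀ Z ⊆ A₀ᶜ, Z.Nonempty → c ≤ wt w (Nout adj Z) := by
    intro Z hZ hZne
    have hdis : Disjoint Z (Nout adj Z) := by
      rw [Finset.disjoint_left]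
      intro x hx hx'
      unfold Nout at hx'
      exact (Finset.mem_filter.1 hx').2.1 hx
    by_cases hr : ((Z ∪ Nout adj Z)ᶜ).Nonempty
    · have hsep : Sep adj Z (Z ∪ Nout adj Z)ᶜ := by
        refine ⟨hZne, hr, ?_, ?_⟩
        · rw [Finset.disjoint_left]
          intro x hx hx'
          exact (Finset.mem_compl.1 hx') (Finset.mem_union_left _ hx)
        · intro a ha b hb hab
          rw [Finset.mem_compl, Finset.mem_union] at hb
          push Not at hb
          apply hb.2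
          unfold Nout
          exact Finset.mem_filter.2 ⟨Finset.mem_univ _, hb.1, a, ha, hab⟩
      have e := hs _ _ hsep
      have hTT : TT Z (Z ∪ Nout adj Z)ᶜ = Nout adj Z := by
        ext x
        unfold TT
        simp only [Finset.mem_compl, Finset.mem_union]
        constructor
        · intro h
          by_contra hcon
          apply h
          by_cases hxZ : x ∈ Z
          · exact Or.inl hxZ
          · right
            rintro (h' | h')
            · exact hxZ h'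
            · exact hcon h'
        · intro h
          rintro (h' | h')
          · exact Finset.disjoint_left.1 hdis h' h
          · exact h' (Or.inr h)
      rwa [hTT] at e
    · rw [Finset.not_nonempty_iff_eq_empty] at hr
      have hsub : A₀ ⊆ Nout adj Z := by
        intro x hx
        have hxu : x ∈ Z ∪ Nout adj Z := by
          by_contra hcon
          have : x ∈ (Z ∪ Nout adj Z)ᶜ := Finset.mem_compl.2 hcon
          rw [hr] at this
          exact absurd this (Finset.notMem_empty x)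
        rcases Finset.mem_union.1 hxu with h' | h'
        · exact absurd hx (Finset.mem_compl.1 (hZ h'))
        · exact h'
      have := lfl_wt_mono w hw hsub
      have := hbigA _ _ h0
      linarith
  have hmem : ∀ D ∈ 𝒟, D.Nonempty ∧ D ⊆ A₀ᶜ ∧ wt w (Nout adj D) = c := by
    intro D h
    obtain ⟨⟨B, t⟩, d⟩ := (hD D).1 h
    refine ⟨t.1.1, ?_, ?_⟩
    · intro x hx
      rw [Finset.mem_compl]
      exact Finset.disjoint_left.1 d hx
    · rw [← lfl_nout hw hs t]; exact t.2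
  have hcount := hc V adj w c 𝒟 A₀ᶜ hw hmem hclosed hout hne
  -- leaves
  have hleaf : ∀ E, E ∈ leaves 𝒟 ↔ E ∈ 𝒟 ∧ ∀ D ∈ 𝒟, D ⊆ E → D = E := by
    intro E
    unfold leaves
    rw [Finset.mem_filter]
  have hgood : ∀ E ∈ leaves 𝒟, (∀ A B, Tight adj w c A B → (A ∩ E).Nonempty → E ⊆ A) ∧
      (∀ A B, Tight adj w c A B → Disjoint A E → A₀ ⊆ A → A = A₀) := by
    intro E h
    obtain ⟨h1, h2⟩ := (hleaf E).1 h
    obtain ⟨⟨BE, t⟩, d⟩ := (hD E).1 h1
    refine hE E BE t d ?_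
    intro A B hAB hAE
    exact h2 A ((hD A).2 ⟨⟨B, hAB⟩, d.mono_left hAE⟩) hAE
  have hpd : ∀ E ∈ leaves 𝒟, ∀ E' ∈ leaves 𝒟, E ≠ E' → Disjoint E E' := by
    intro E h E' h' hne'
    by_contra hcon
    rw [Finset.not_disjoint_iff_nonempty_inter] at hcon
    obtain ⟨h1, h2⟩ := (hleaf E').1 h'
    obtain ⟨h3, h4⟩ := (hleaf E).1 h
    obtain ⟨⟨BE, t⟩, d⟩ := (hD E').1 h1
    have hsub := (hgood E h).1 E' BE t (by rwa [Finset.inter_comm])
    exact hne' (h2 E h3 hsub)
  have hlne : (leaves 𝒟).Nonempty := by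
    obtain ⟨E, hE1, hE2⟩ := Finset.exists_min_image 𝒟 (fun D => D.card) hne
    refine ⟨E, (hleaf E).2 ⟨hE1, ?_⟩⟩
    intro D hD1 hD2
    exact Finset.eq_of_subset_of_card_le hD2 (hE2 D hD1)
  have hTT0 := lfl_nout hw hs h0
  have hcover : ∀ E ∈ leaves 𝒟, E ∩ Cov adj w c ⊆ TT A₀ B₀ ∪ covset adj 𝒟 := by
    intro E h x hx
    rw [Finset.mem_inter] at hx
    obtain ⟨hxE, hxC⟩ := hx
    unfold Cov at hxC
    rw [Finset.mem_filter] at hxC
    obtain ⟨-, A, B, t, hxT⟩ := hxC
    obtain ⟨hE1, hE2⟩ := (hleaf E).1 h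
    obtain ⟨⟨BE, tE⟩, dE⟩ := (hD E).1 hE1
    have hxA : x ∉ A := by
      intro hxA
      unfold TT at hxT
      exact (Finset.mem_compl.1 hxT) (Finset.mem_union_left _ hxA)
    have hAE : Disjoint A E := by
      by_contra hcon
      rw [Finset.not_disjoint_iff_nonempty_inter] at hcon
      exact hxA ((hgood E h).1 A B t hcon hxE)
    have hxN : x ∈ Nout adj A := by rw [← lfl_nout hw hs t]; exact hxT
    rw [Finset.mem_union]
    by_cases hAA : Disjoint A A₀
    · right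
      unfold covset
      rw [Finset.mem_filter]
      exact ⟨Finset.mem_univ _, E, h, hxE, A, (hD A).2 ⟨⟨B, t⟩, hAA⟩, hAE, hxN⟩
    · left
      by_contra hxT0
      rw [Finset.not_disjoint_iff_nonempty_inter] at hAA
      have hxA0 : x ∉ A₀ := Finset.disjoint_left.1 dE hxE
      have hBB : (B ∩ B₀).Nonempty := by
        by_contra hcon
        have hl := lfl_light hs t h0 hAA hcon
        have hsub : E ⊆ (A ∪ A₀)ᶜ := by
          intro y hy
          rw [Finset.mem_compl, Finset.mem_union]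
          rintro (h' | h')
          · exact Finset.disjoint_left.1 hAE h' hy
          · exact Finset.disjoint_left.1 dE hy h'
        have := lfl_wt_mono w hw hsub
        have := hbigA _ _ tE
        linarith
      obtain ⟨-, c2⟩ := lfl_corner hs t h0 hAA hBB
      have hdis : Disjoint (A ∪ A₀) E := by
        rw [Finset.disjoint_union_left]; exact ⟨hAE, dE.symm⟩
      have heq := (hgood E h).2 _ _ c2 hdis Finset.subset_union_right
      have hsub : A ⊆ A₀ := by rw [← heq]; exact Finset.subset_union_left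
      apply hxT0
      rw [hTT0]
      unfold Nout at hxN ⊢
      rw [Finset.mem_filter] at hxN ⊢
      obtain ⟨-, -, s, hsA, hsx⟩ := hxN
      exact ⟨Finset.mem_univ _, hxA0, s, hsub hsA, hsx⟩
  -- the sum
  have hsum : ∑ E ∈ leaves 𝒟, wt w (E ∩ Cov adj w c) ≤ c + wt w (covset adj 𝒟) := by
    have h1 : ∑ E ∈ leaves 𝒟, wt w (E ∩ Cov adj w c) =
        wt w ((leaves 𝒟).biUnion fun E => E ∩ Cov adj w c) := by
      unfold wt
      rw [Finset.sum_biUnion]
      intro E h E' h' hne'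
      exact (hpd E h E' h' hne').mono Finset.inter_subset_left Finset.inter_subset_left
    rw [h1]
    have h2 : ((leaves 𝒟).biUnion fun E => E ∩ Cov adj w c) ⊆ TT A₀ B₀ ∪ covset adj 𝒟 := by
      rw [Finset.biUnion_subset]
      exact hcover
    have h3 := lfl_wt_mono w hw h2
    have h4 := lfl_wt_union_le w hw (TT A₀ B₀) (covset adj 𝒟)
    rw [h0.2] at h4
    linarith
  have hlow : ((leaves 𝒟).card : ℝ) * c < ∑ E ∈ leaves 𝒟, wt w (E ∩ Cov adj w c) := by
    have h1 : ∑ E ∈ leaves 𝒟, c < ∑ E ∈ leaves 𝒟, wt w (E ∩ Cov adj w c) := by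
      refine Finset.sum_lt_sum_of_nonempty hlne ?_
      intro E h
      obtain ⟨hE1, -⟩ := (hleaf E).1 h
      obtain ⟨⟨BE, tE⟩, -⟩ := (hD E).1 hE1
      exact (hbig E BE tE).1
    rwa [Finset.sum_const, nsmul_eq_mul] at h1
  nlinarith

lemma lfl_sep_rev (adj : V → V → Prop) (A B : Finset V) : Sep (rev adj) A B ↔ Sep adj B A := by
  constructor
  · rintro ⟨h1, h2, h3, h4⟩
    exact ⟨h2, h1, h3.symm, fun a ha b hb => h4 b hb a ha⟩
  · rintro ⟨h1, h2, h3, h4⟩
    exact ⟨h2, h1, h3.symm, fun a ha b hb => h4 b hb a ha⟩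

lemma lfl_TT_comm (A B : Finset V) : TT A B = TT B A := by
  unfold TT; rw [Finset.union_comm]

lemma lfl_tight_rev (adj : V → V → Prop) (w : V → ℝ) (c : ℝ) (A B : Finset V) :
    Tight (rev adj) w c A B ↔ Tight adj w c B A := by
  unfold Tight
  rw [lfl_sep_rev, lfl_TT_comm]

lemma lfl_cov_rev (adj : V → V → Prop) (w : V → ℝ) (c : ℝ) :
    Cov (rev adj) w c = Cov adj w c := by
  classical
  ext x
  unfold Cov
  rw [Finset.mem_filter, Finset.mem_filter]
  refine and_congr_right fun _ => ?_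
  constructor
  · rintro ⟨A, B, h, hx⟩
    exact ⟨B, A, (lfl_tight_rev adj w c A B).1 h, by rwa [lfl_TT_comm]⟩
  · rintro ⟨A, B, h, hx⟩
    exact ⟨B, A, (lfl_tight_rev adj w c B A).2 h, by rwa [lfl_TT_comm]⟩

theorem lfl (hr : Stmt_Region) (hc : Stmt_Count) : Stmt_LFL := by
  intro V _ _ adj w c hw hs hex
  by_contra hcon
  have hbig : ∀ A B, Tight adj w c A B →
      c < wt w (A ∩ Cov adj w c) ∧ c < wt w (B ∩ Cov adj w c) := by
    intro A B h
    by_contra h'
    rw [not_and_or, not_lt, not_lt] at h'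
    exact hcon ⟨A, B, h, h'⟩
  have hc0 : 0 ≤ c := by
    obtain ⟨A, B, h⟩ := hex
    rw [← h.2]; exact lfl_wt_nonneg w hw _
  obtain ⟨adj', hadj, A₀, B₀, h0, hF, hE⟩ := hr V adj w c hw hc0 hs hex hbig
  rcases hadj with rfl | rfl
  · exact lfl_core hc adj' w c hw hs hbig A₀ B₀ h0 hF hE
  · refine lfl_core hc (rev adj) w c hw ?_ ?_ A₀ B₀ h0 hF hE
    · intro A B h
      rw [lfl_TT_comm]
      exact hs B A ((lfl_sep_rev adj A B).1 h)
    · intro A B h
      rw [lfl_cov_rev]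
      have := hbig B A ((lfl_tight_rev adj w c A B).1 h)
      exact ⟨this.2, this.1⟩

end Pool.MDP
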