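import Pool.Agent.MDP.Stmts

/-!
Disjoint paths give large separators. Paper: /team-store/MDP_paper.md, section 10
-/

open Finset

noncomputable section

namespace Pool.MDP

theorem men1_cross {n : ℕ} (A : Finset (Fin n)) (l : List (Fin n)) (a b : Fin n) (ha : a ∈ A)
    (hb : b ∉ A) (h1 : l.head? = some a) (h2 : l.getLast? = some b) :
    ∃ (j : ℕ) (u v : Fin n), l[j]? = some u ∧ l[j+1]? = some v ∧ u ∈ A ∧ v ∉ A := by
  classical
  have hex : ∃ j : ℕ, ∃ v : Fin n, l[j]? = some v ∧ v ∉ A := by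
    refine ⟨l.length - 1, b, ?_, hb⟩
    rw [← List.getLast?_eq_getElem?]
    exact h2
  obtain ⟨v, hv, hvA⟩ := Nat.find_spec hex
  have hmin := fun m (hm : m < Nat.find hex) => Nat.find_min hex hm
  rcases Nat.eq_zero_or_pos (Nat.find hex) with h0 | hpos
  · exfalso
    rw [h0, ← List.head?_eq_getElem?, h1] at hv
    exact hvA ((Option.some.inj hv) ▸ ha)
  · obtain ⟨j, hj⟩ : ∃ j, Nat.find hex = j + 1 := ⟨Nat.find hex - 1, by omega⟩
    rw [hj] at hv
    have hlt : j + 1 < l.length := by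
      by_contra hcon
      rw [List.getElem?_eq_none (by omega)] at hv
      exact absurd hv (by simp)
    have hj' : l[j]? = some l[j] := List.getElem?_eq_getElem (by omega)
    refine ⟨j, l[j], v, hj', hv, ?_, hvA⟩
    by_contra hcon
    exact hmin j (by omega) ⟨l[j], hj', hcon⟩

theorem men1 : Stmt_Men1 := by
  classical
  intro n k adj W h
  obtain ⟨h1, h2⟩ := h
  refine ⟨by rwa [Set.ncard_coe_finset] at h1, fun A B hA hB hS => ?_⟩
  obtain ⟨⟨a, ha⟩, ⟨b, hb⟩, hdisj, hno⟩ := hS
  have hbA : b ∉ A := fun e => (Finset.disjoint_left.mp hdisj e) hb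
  have hab : a ≠ b := fun e => hbA (e ▸ ha)
  obtain ⟨p, hinj, hp, hd⟩ := h2 a (hA ha) b (hB hb) hab
  have key : ∀ i, ∃ v, v ∈ p i ∧ v ∈ W \ (A ∪ B) := by
    intro i
    obtain ⟨hh, hl, -, hW, hadj⟩ := hp i
    obtain ⟨j, u, v, hju, hjv, hu, hv⟩ := men1_cross A (p i) a b ha hbA hh hl
    have hvm : v ∈ p i := List.mem_of_getElem? hjv
    refine ⟨v, hvm, ?_⟩
    rw [mem_sdiff, mem_union]
    refine ⟨hW v hvm, ?_⟩
    rintro (h | h)
    · exact hv h
    · exact hno u hu v h (hadj j u v hju hjv)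
  choose v hv1 hv2 using key
  have hvinj : Function.Injective v := by
    intro i j hij
    by_contra hne
    have h3 := hd i j hne (v i) (hv1 i) (hij ▸ hv1 j)
    have h4 := hv2 i
    rw [mem_sdiff, mem_union] at h4
    rcases h3 with h3 | h3
    · exact h4.2 (Or.inl (h3 ▸ ha))
    · exact h4.2 (Or.inr (h3 ▸ hb))
  calc k = (univ.image v).card := by
        rw [card_image_of_injective _ hvinj, card_univ, Fintype.card_fin]
    _ ≤ (W \ (A ∪ B)).card := by
        apply card_le_card
        intro x hx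
        rw [mem_image] at hx
        obtain ⟨i, _, rfl⟩ := hx
        exact hv2 i

end Pool.MDP
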