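import Pool.Agent.MDP.Stmts

/-!
Module Men2: Menger's theorem in the form needed, from Hall's theorem (section 9 of the paper).
-/

open Finset

noncomputable section

namespace Pool.MDP

theorem men2_follow {k n : ℕ} (U : Finset (Fin n))
    (g : Fin k ⊕ {x // x ∈ U} → Fin k ⊕ Fin n) (hg : Function.Injective g)
    (hU : ∀ z y, g z = Sum.inr y → y ∈ U) :
    ∃ (T : Fin k → ℕ) (s : Fin k → ℕ → Fin k ⊕ {x // x ∈ U}),
      (∀ i, s i 0 = Sum.inl i) ∧
      (∀ i t, t < T i → ∃ y : {x // x ∈ U}, g (s i t) = Sum.inr y.1 ∧ s i (t + 1) = Sum.inr y) ∧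
      (∀ i, ∃ j, g (s i (T i)) = Sum.inl j) ∧
      ∀ i i' t t', t ≤ T i → t' ≤ T i' → s i t = s i' t' → i = i' ∧ t = t' := by
  classical
  let nxt : Fin k ⊕ {x // x ∈ U} → Fin k ⊕ {x // x ∈ U} := fun z =>
    if h : ∃ y : {x // x ∈ U}, g z = Sum.inr y.1 then Sum.inr h.choose else z
  have hnxt : ∀ z, (¬ ∃ j, g z = Sum.inl j) →
      ∃ y : {x // x ∈ U}, g z = Sum.inr y.1 ∧ nxt z = Sum.inr y := by
    intro z hz
    have h : ∃ y : {x // x ∈ U}, g z = Sum.inr y.1 := by
      rcases hgz : g z with j | y
      · exact absurd ⟨j, hgz⟩ hz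
      · exact ⟨⟨y, hU z y hgz⟩, rfl⟩
    refine ⟨h.choose, h.choose_spec, ?_⟩
    exact dif_pos h
  let s : Fin k → ℕ → Fin k ⊕ {x // x ∈ U} := fun i t => nxt^[t] (Sum.inl i)
  have hs0 : ∀ i, s i 0 = Sum.inl i := fun i => rfl
  have hs1 : ∀ i t, s i (t + 1) = nxt (s i t) := fun i t => Function.iterate_succ_apply' _ _ _
  have hback : ∀ t t' i i', (∀ τ < t, ¬ ∃ j, g (s i τ) = Sum.inl j) →
      (∀ τ < t', ¬ ∃ j, g (s i' τ) = Sum.inl j) → s i t = s i' t' → i = i' ∧ t = t' := by
    intro t
    induction t with
    | zero =>
      intro t' i i' _ h2 he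
      rw [hs0] at he
      cases t' with
      | zero =>
        rw [hs0] at he
        exact ⟨Sum.inl_injective he, rfl⟩
      | succ t' =>
        obtain ⟨y, _, hy⟩ := hnxt _ (h2 t' (Nat.lt_succ_self _))
        rw [hs1, hy] at he
        cases he
    | succ t ih =>
      intro t' i i' h1 h2 he
      obtain ⟨y, hy1, hy2⟩ := hnxt _ (h1 t (Nat.lt_succ_self _))
      rw [hs1, hy2] at he
      cases t' with
      | zero =>
        rw [hs0] at he
        cases he
      | succ t' =>
        obtain ⟨y', hy1', hy2'⟩ := hnxt _ (h2 t' (Nat.lt_succ_self _))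
        rw [hs1, hy2'] at he
        have hyy : y = y' := Sum.inr_injective he
        subst hyy
        have hss : s i t = s i' t' := hg (hy1.trans hy1'.symm)
        obtain ⟨a, b⟩ := ih t' i i' (fun τ hτ => h1 τ (by omega)) (fun τ hτ => h2 τ (by omega)) hss
        exact ⟨a, by rw [b]⟩
  have hstop : ∀ i, ∃ t, ∃ j, g (s i t) = Sum.inl j := by
    intro i
    by_contra hno
    push Not at hno
    have hinj : Function.Injective (s i) := by
      intro t t' h
      exact (hback t t' i i (fun τ _ => by push Not; exact hno τ)
        (fun τ _ => by push Not; exact hno τ) h).2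
    exact not_injective_infinite_finite (s i) hinj
  refine ⟨fun i => Nat.find (hstop i), s, hs0, ?_, fun i => Nat.find_spec (hstop i), ?_⟩
  · intro i t ht
    obtain ⟨y, hy1, hy2⟩ := hnxt _ (Nat.find_min (hstop i) ht)
    exact ⟨y, hy1, by rw [hs1, hy2]⟩
  · intro i i' t t' ht ht' h
    exact hback t t' i i' (fun τ hτ => Nat.find_min (hstop i) (lt_of_lt_of_le hτ ht))
      (fun τ hτ => Nat.find_min (hstop i') (lt_of_lt_of_le hτ ht')) h

open Classical in
/-- the neighbours in the auxiliary bipartite graph -/
def men2_t {k n : ℕ} (adj : Fin n → Fin n → Prop) (a b : Fin n) (U : Finset (Fin n)) :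
    Fin k ⊕ {x // x ∈ U} → Finset (Fin k ⊕ Fin n)
  | Sum.inl i => (univ.filter fun z => ∃ y ∈ U, adj a y ∧ z = Sum.inr y) ∪
      (univ.filter fun z => ∃ j : Fin k, adj a b ∧ i.val = 0 ∧ j.val = 0 ∧ z = Sum.inl j)
  | Sum.inr x => (univ.filter fun z => ∃ y ∈ U, (y = x.1 ∨ adj x.1 y) ∧ z = Sum.inr y) ∪
      (univ.filter fun z => ∃ j : Fin k, adj x.1 b ∧ z = Sum.inl j)

theorem men2_mem_ll {k n : ℕ} (adj : Fin n → Fin n → Prop) (a b : Fin n) (U : Finset (Fin n))
    (i j : Fin k) : (Sum.inl j : Fin k ⊕ Fin n) ∈ men2_t adj a b U (Sum.inl i) ↔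
      adj a b ∧ i.val = 0 ∧ j.val = 0 := by
  unfold men2_t
  simp only [Finset.mem_union, Finset.mem_filter, Finset.mem_univ, true_and]
  constructor
  · rintro (⟨y, _, _, h⟩ | ⟨j', h1, h2, h3, h4⟩)
    · cases h
    · cases h4
      exact ⟨h1, h2, h3⟩
  · rintro ⟨h1, h2, h3⟩
    exact Or.inr ⟨j, h1, h2, h3, rfl⟩

theorem men2_mem_lr {k n : ℕ} (adj : Fin n → Fin n → Prop) (a b : Fin n) (U : Finset (Fin n))
    (i : Fin k) (y : Fin n) : (Sum.inr y : Fin k ⊕ Fin n) ∈ men2_t adj a b U (Sum.inl i) ↔
      y ∈ U ∧ adj a y := by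
  unfold men2_t
  simp only [Finset.mem_union, Finset.mem_filter, Finset.mem_univ, true_and]
  constructor
  · rintro (⟨y', h1, h2, h⟩ | ⟨j', _, _, _, h4⟩)
    · cases h
      exact ⟨h1, h2⟩
    · cases h4
  · rintro ⟨h1, h2⟩
    exact Or.inl ⟨y, h1, h2, rfl⟩

theorem men2_mem_rl {k n : ℕ} (adj : Fin n → Fin n → Prop) (a b : Fin n) (U : Finset (Fin n))
    (x : {x // x ∈ U}) (j : Fin k) :
    (Sum.inl j : Fin k ⊕ Fin n) ∈ men2_t adj a b U (Sum.inr x) ↔ adj x.1 b := by
  unfold men2_t
  simp only [Finset.mem_union, Finset.mem_filter, Finset.mem_univ, true_and]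
  constructor
  · rintro (⟨y, _, _, h⟩ | ⟨j', h1, h4⟩)
    · cases h
    · exact h1
  · intro h1
    exact Or.inr ⟨j, h1, rfl⟩

theorem men2_mem_rr {k n : ℕ} (adj : Fin n → Fin n → Prop) (a b : Fin n) (U : Finset (Fin n))
    (x : {x // x ∈ U}) (y : Fin n) :
    (Sum.inr y : Fin k ⊕ Fin n) ∈ men2_t adj a b U (Sum.inr x) ↔
      y ∈ U ∧ (y = x.1 ∨ adj x.1 y) := by
  unfold men2_t
  simp only [Finset.mem_union, Finset.mem_filter, Finset.mem_univ, true_and]
  constructor
  · rintro (⟨y', h1, h2, h⟩ | ⟨j', _, h4⟩)
    · cases h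
      exact ⟨h1, h2⟩
    · cases h4
  · rintro ⟨h1, h2⟩
    exact Or.inl ⟨y, h1, h2, rfl⟩

/-- Hall's condition -/
theorem men2_hall {k n : ℕ} (adj : Fin n → Fin n → Prop) (a b : Fin n) (W U : Finset (Fin n))
    (hUmem : ∀ x, x ∈ U ↔ x ∈ W ∧ x ≠ a ∧ x ≠ b)
    (hk : 1 ≤ k) (hW : SepConn adj k W) (ha : a ∈ W) (hb : b ∈ W) (hab : a ≠ b)
    (s : Finset (Fin k ⊕ {x // x ∈ U})) :
    s.card ≤ (s.biUnion (men2_t (k := k) adj a b U)).card := by
  classical
  obtain ⟨hcard, hsep⟩ := hW
  let I : Finset (Fin k) := univ.filter fun i => Sum.inl i ∈ s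
  let X : Finset (Fin n) := univ.filter fun x => ∃ h : x ∈ U, Sum.inr ⟨x, h⟩ ∈ s
  have hXU : ∀ x ∈ X, x ∈ U := by
    intro x hx
    rw [Finset.mem_filter] at hx
    exact hx.2.1
  have hs : s.card = I.card + X.card := by
    have h1 : s = (I.image Sum.inl) ∪
        ((univ.filter fun x : {x // x ∈ U} => Sum.inr x ∈ s).image Sum.inr) := by
      ext z
      rcases z with i | x
      · simp [I]
      · simp
    have h2 : (univ.filter fun x : {x // x ∈ U} => (Sum.inr x : Fin k ⊕ {x // x ∈ U}) ∈ s).card
        = X.card := by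
      apply Finset.card_bij (fun x _ => x.1)
      · intro x hx
        rw [Finset.mem_filter] at hx ⊢
        exact ⟨Finset.mem_univ _, x.2, hx.2⟩
      · intro x _ y _ h
        exact Subtype.ext h
      · intro x hx
        rw [Finset.mem_filter] at hx
        obtain ⟨_, h, hx⟩ := hx
        exact ⟨⟨x, h⟩, by simp [hx], rfl⟩
    conv_lhs => rw [h1]
    rw [Finset.card_union_of_disjoint, Finset.card_image_of_injective _ Sum.inl_injective,
      Finset.card_image_of_injective _ Sum.inr_injective, h2]
    rw [Finset.disjoint_left]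
    intro z hz hz'
    obtain ⟨i, _, rfl⟩ := Finset.mem_image.1 hz
    obtain ⟨x, _, hx⟩ := Finset.mem_image.1 hz'
    cases hx
  have hIk : I.card ≤ k := by
    have := Finset.card_le_univ I
    simpa using this
  -- lower bounds for the neighbourhood
  have key : ∀ (J : Finset (Fin k)) (Y : Finset (Fin n)),
      (∀ j ∈ J, Sum.inl j ∈ s.biUnion (men2_t (k := k) adj a b U)) →
      (∀ y ∈ Y, Sum.inr y ∈ s.biUnion (men2_t (k := k) adj a b U)) →
      J.card + Y.card ≤ (s.biUnion (men2_t (k := k) adj a b U)).card := by
    intro J Y hJ hY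
    have h1 : (J.image Sum.inl) ∪ (Y.image Sum.inr) ⊆
        s.biUnion (men2_t (k := k) adj a b U) := by
      intro z hz
      rcases Finset.mem_union.1 hz with hz | hz
      · obtain ⟨j, hj, rfl⟩ := Finset.mem_image.1 hz
        exact hJ j hj
      · obtain ⟨y, hy, rfl⟩ := Finset.mem_image.1 hz
        exact hY y hy
    have h2 := Finset.card_le_card h1
    rw [Finset.card_union_of_disjoint, Finset.card_image_of_injective _ Sum.inl_injective,
      Finset.card_image_of_injective _ Sum.inr_injective] at h2
    · exact h2
    · rw [Finset.disjoint_left]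
      intro z hz hz'
      obtain ⟨i, _, rfl⟩ := Finset.mem_image.1 hz
      obtain ⟨x, _, hx⟩ := Finset.mem_image.1 hz'
      cases hx
  have hX1 : ∀ x ∈ X, Sum.inr x ∈ s.biUnion (men2_t (k := k) adj a b U) := by
    intro x hx
    have hx' := hx
    rw [Finset.mem_filter] at hx'
    obtain ⟨_, h, hxs⟩ := hx'
    rw [Finset.mem_biUnion]
    exact ⟨_, hxs, (men2_mem_rr adj a b U ⟨x, h⟩ x).2 ⟨h, Or.inl rfl⟩⟩
  rw [hs]
  rcases Finset.eq_empty_or_nonempty I with hI | hI
  · rw [hI, Finset.card_empty]
    have := key ∅ X (fun j hj => absurd hj (Finset.notMem_empty _)) hX1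
    simpa using this
  · obtain ⟨i0, hi0⟩ := hI
    have hi0s : Sum.inl i0 ∈ s := (Finset.mem_filter.1 hi0).2
    by_cases hxb : ∃ x ∈ X, adj x b
    · obtain ⟨x, hx, hadj⟩ := hxb
      have hx' := hx
      rw [Finset.mem_filter] at hx'
      obtain ⟨_, h, hxs⟩ := hx'
      have := key univ X (fun j _ => by
        rw [Finset.mem_biUnion]
        exact ⟨_, hxs, (men2_mem_rl adj a b U ⟨x, h⟩ j).2 hadj⟩) hX1
      rw [Finset.card_univ, Fintype.card_fin] at this
      omega
    · push Not at hxb
      let Z : Finset (Fin n) := insert a X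
      let S : Finset (Fin n) := univ.filter fun y => y ∈ U ∧ y ∉ X ∧ ∃ z ∈ Z, adj z y
      have hSmem : ∀ y, y ∈ S ↔ y ∈ U ∧ y ∉ X ∧ ∃ z ∈ Z, adj z y := by
        intro y
        simp [S]
      have haX : a ∉ X := fun h => ((hUmem a).1 (hXU a h)).2.1 rfl
      have hbX : b ∉ X := fun h => ((hUmem b).1 (hXU b h)).2.2 rfl
      have hZW : Z ⊆ W := by
        intro z hz
        rcases Finset.mem_insert.1 hz with rfl | hz
        · exact ha
        · exact ((hUmem z).1 (hXU z hz)).1
      have hbZ : b ∉ Z := by
        intro h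
        rcases Finset.mem_insert.1 h with h | h
        · exact hab h.symm
        · exact hbX h
      have hXS : ∀ y ∈ X ∪ S, Sum.inr y ∈ s.biUnion (men2_t (k := k) adj a b U) := by
        intro y hy
        rcases Finset.mem_union.1 hy with hy | hy
        · exact hX1 y hy
        · obtain ⟨hyU, hyX, z, hz, hzy⟩ := (hSmem y).1 hy
          rcases Finset.mem_insert.1 hz with rfl | hz
          · rw [Finset.mem_biUnion]
            exact ⟨_, hi0s, (men2_mem_lr adj z b U i0 y).2 ⟨hyU, hzy⟩⟩
          · have hx' := hz
            rw [Finset.mem_filter] at hx'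
            obtain ⟨_, h, hxs⟩ := hx'
            rw [Finset.mem_biUnion]
            exact ⟨_, hxs, (men2_mem_rr adj a b U ⟨z, h⟩ y).2 ⟨hyU, Or.inr hzy⟩⟩
      have hdisj : Disjoint X S := by
        rw [Finset.disjoint_left]
        intro y hy hy'
        exact ((hSmem y).1 hy').2.1 hy
      have hcardXS : (X ∪ S).card = X.card + S.card := Finset.card_union_of_disjoint hdisj
      by_cases hadjab : adj a b
      · have hSk : k ≤ S.card + 1 := by
          rcases Finset.eq_empty_or_nonempty ((W \ (Z ∪ S)) \ {b}) with hB | hB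
          · rcases Finset.eq_empty_or_nonempty X with hXe | hXe
            · -- W = {a} ∪ S ∪ {b}
              have hWs : W ⊆ insert a (insert b S) := by
                intro w hw
                by_contra hw'
                rw [Finset.mem_insert, Finset.mem_insert] at hw'
                push Not at hw'
                have : w ∈ (W \ (Z ∪ S)) \ {b} := by
                  rw [Finset.mem_sdiff, Finset.mem_sdiff, Finset.mem_union, Finset.mem_singleton]
                  refine ⟨⟨hw, ?_⟩, hw'.2.1⟩
                  rintro (h | h)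
                  · rcases Finset.mem_insert.1 h with h | h
                    · exact hw'.1 h
                    · rw [hXe] at h
                      exact absurd h (Finset.notMem_empty _)
                  · exact hw'.2.2 h
                rw [hB] at this
                exact absurd this (Finset.notMem_empty _)
              have h1 := Finset.card_le_card hWs
              have h2 := Finset.card_insert_le a (insert b S)
              have h3 := Finset.card_insert_le b S
              omega
            · have hsep1 : Sep adj X {b} := by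
                refine ⟨hXe, Finset.singleton_nonempty b, ?_, ?_⟩
                · rw [Finset.disjoint_singleton_right]
                  exact hbX
                · intro x hx y hy
                  rw [Finset.mem_singleton] at hy
                  rw [hy]
                  exact hxb x hx
              have h1 := hsep X {b} (fun x hx => ((hUmem x).1 (hXU x hx)).1)
                (Finset.singleton_subset_iff.2 hb) hsep1
              have h2 : W \ (X ∪ {b}) ⊆ insert a S := by
                intro w hw
                rw [Finset.mem_sdiff, Finset.mem_union, Finset.mem_singleton] at hw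
                push Not at hw
                by_contra hw'
                rw [Finset.mem_insert] at hw'
                push Not at hw'
                have : w ∈ (W \ (Z ∪ S)) \ {b} := by
                  rw [Finset.mem_sdiff, Finset.mem_sdiff, Finset.mem_union, Finset.mem_singleton]
                  refine ⟨⟨hw.1, ?_⟩, hw.2.2⟩
                  rintro (h | h)
                  · rcases Finset.mem_insert.1 h with h | h
                    · exact hw'.1 h
                    · exact hw.2.1 h
                  · exact hw'.2 h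
                rw [hB] at this
                exact absurd this (Finset.notMem_empty _)
              have h3 := Finset.card_le_card h2
              have h4 := Finset.card_insert_le a S
              omega
          · have hsep1 : Sep adj Z ((W \ (Z ∪ S)) \ {b}) := by
              refine ⟨⟨a, Finset.mem_insert_self _ _⟩, hB, ?_, ?_⟩
              · rw [Finset.disjoint_left]
                intro z hz hz'
                rw [Finset.mem_sdiff, Finset.mem_sdiff, Finset.mem_union] at hz'
                exact hz'.1.2 (Or.inl hz)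
              · intro z hz y hy hzy
                rw [Finset.mem_sdiff, Finset.mem_sdiff, Finset.mem_union,
                  Finset.mem_singleton] at hy
                push Not at hy
                obtain ⟨⟨hyW, hyZ, hyS⟩, hyb⟩ := hy
                apply hyS
                rw [hSmem]
                refine ⟨?_, ?_, z, hz, hzy⟩
                · rw [hUmem]
                  refine ⟨hyW, ?_, hyb⟩
                  intro h
                  exact hyZ (by rw [h]; exact Finset.mem_insert_self _ _)
                · intro h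
                  exact hyZ (Finset.mem_insert_of_mem h)
            have h1 := hsep Z ((W \ (Z ∪ S)) \ {b}) hZW
              (fun y hy => (Finset.mem_sdiff.1 (Finset.mem_sdiff.1 hy).1).1) hsep1
            have h2 : W \ (Z ∪ ((W \ (Z ∪ S)) \ {b})) ⊆ insert b S := by
              intro w hw
              rw [Finset.mem_sdiff, Finset.mem_union] at hw
              push Not at hw
              obtain ⟨hwW, hwZ, hwB⟩ := hw
              by_contra hw'
              rw [Finset.mem_insert] at hw'
              push Not at hw'
              apply hwB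
              rw [Finset.mem_sdiff, Finset.mem_sdiff, Finset.mem_union, Finset.mem_singleton]
              refine ⟨⟨hwW, ?_⟩, hw'.1⟩
              rintro (h | h)
              · exact hwZ h
              · exact hw'.2 h
            have h3 := Finset.card_le_card h2
            have h4 := Finset.card_insert_le b S
            omega
        by_cases h0 : (⟨0, hk⟩ : Fin k) ∈ I
        · have := key {⟨0, hk⟩} (X ∪ S) (fun j hj => by
            rw [Finset.mem_singleton] at hj
            rw [hj, Finset.mem_biUnion]
            exact ⟨_, (Finset.mem_filter.1 h0).2,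
              (men2_mem_ll adj a b U ⟨0, hk⟩ ⟨0, hk⟩).2 ⟨hadjab, rfl, rfl⟩⟩) hXS
          rw [Finset.card_singleton, hcardXS] at this
          omega
        · have hI' : I.card ≤ k - 1 := by
            have h1 : I ⊆ univ.erase ⟨0, hk⟩ := by
              intro i hi
              rw [Finset.mem_erase]
              refine ⟨?_, Finset.mem_univ _⟩
              rintro rfl
              exact h0 hi
            have h2 := Finset.card_le_card h1
            rw [Finset.card_erase_of_mem (Finset.mem_univ _), Finset.card_univ,
              Fintype.card_fin] at h2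
            exact h2
          have := key ∅ (X ∪ S) (fun j hj => absurd hj (Finset.notMem_empty _)) hXS
          rw [Finset.card_empty, hcardXS] at this
          omega
      · have hSk : k ≤ S.card := by
          have hbB : b ∈ W \ (Z ∪ S) := by
            rw [Finset.mem_sdiff, Finset.mem_union]
            refine ⟨hb, ?_⟩
            rintro (h | h)
            · exact hbZ h
            · exact ((hUmem b).1 ((hSmem b).1 h).1).2.2 rfl
          have hsep1 : Sep adj Z (W \ (Z ∪ S)) := by
            refine ⟨⟨a, Finset.mem_insert_self _ _⟩, ⟨b, hbB⟩, ?_, ?_⟩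
            · rw [Finset.disjoint_left]
              intro z hz hz'
              rw [Finset.mem_sdiff, Finset.mem_union] at hz'
              exact hz'.2 (Or.inl hz)
            · intro z hz y hy hzy
              rw [Finset.mem_sdiff, Finset.mem_union] at hy
              push Not at hy
              obtain ⟨hyW, hyZ, hyS⟩ := hy
              by_cases hyb : y = b
              · rw [hyb] at hzy
                rcases Finset.mem_insert.1 hz with h | h
                · rw [h] at hzy
                  exact hadjab hzy
                · exact hxb z h hzy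
              · apply hyS
                rw [hSmem]
                refine ⟨?_, ?_, z, hz, hzy⟩
                · rw [hUmem]
                  refine ⟨hyW, ?_, hyb⟩
                  intro h
                  exact hyZ (by rw [h]; exact Finset.mem_insert_self _ _)
                · intro h
                  exact hyZ (Finset.mem_insert_of_mem h)
          have h1 := hsep Z (W \ (Z ∪ S)) hZW (fun y hy => (Finset.mem_sdiff.1 hy).1) hsep1
          have h2 : W \ (Z ∪ (W \ (Z ∪ S))) ⊆ S := by
            intro w hw
            rw [Finset.mem_sdiff, Finset.mem_union] at hw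
            push Not at hw
            obtain ⟨hwW, hwZ, hwB⟩ := hw
            by_contra hw'
            apply hwB
            rw [Finset.mem_sdiff, Finset.mem_union]
            refine ⟨hwW, ?_⟩
            rintro (h | h)
            · exact hwZ h
            · exact hw' h
          have h3 := Finset.card_le_card h2
          omega
        have := key ∅ (X ∪ S) (fun j hj => absurd hj (Finset.notMem_empty _)) hXS
        rw [Finset.card_empty, hcardXS] at this
        omega

/-- the vertex of a state -/
def men2_val {k n : ℕ} (a : Fin n) (U : Finset (Fin n)) : Fin k ⊕ {x // x ∈ U} → Fin n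
  | Sum.inl _ => a
  | Sum.inr x => x.1

theorem men2 : Stmt_Men2 := by
  classical
  intro n k adj W hk hW
  have hW' := hW
  obtain ⟨hcard, _⟩ := hW'
  refine ⟨by rw [Set.ncard_coe_finset]; exact hcard, ?_⟩
  intro a ha b hb hab
  have ha' : a ∈ W := ha
  have hb' : b ∈ W := hb
  obtain ⟨U, hUmem⟩ : ∃ U : Finset (Fin n), ∀ x, x ∈ U ↔ x ∈ W ∧ x ≠ a ∧ x ≠ b :=
    ⟨W \ {a, b}, fun x => by simp⟩
  have hall := (Finset.all_card_le_biUnion_card_iff_exists_injective
    (men2_t (k := k) adj a b U)).1 (men2_hall adj a b W U hUmem hk hW ha' hb' hab)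
  obtain ⟨g, hg, hgt⟩ := hall
  have hgU : ∀ z y, g z = Sum.inr y → y ∈ U := by
    intro z y hz
    have h1 := hgt z
    rw [hz] at h1
    rcases z with i | x
    · exact ((men2_mem_lr adj a b U i y).1 h1).1
    · exact ((men2_mem_rr adj a b U x y).1 h1).1
  obtain ⟨T, s, hs0, hs1, hs2, hs3⟩ := men2_follow U g hg hgU
  have hpos : ∀ i t, 0 < t → t ≤ T i → ∃ y : {x // x ∈ U}, s i t = Sum.inr y := by
    intro i t ht htT
    obtain ⟨t, rfl⟩ : ∃ t', t = t' + 1 := ⟨t - 1, by omega⟩
    obtain ⟨y, _, hy⟩ := hs1 i t (by omega)
    exact ⟨y, hy⟩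
  let z : Fin k → ℕ → Fin n := fun i t => if t ≤ T i then men2_val a U (s i t) else b
  have hz0 : ∀ i, z i 0 = a := by
    intro i
    show (if 0 ≤ T i then men2_val a U (s i 0) else b) = a
    rw [if_pos (Nat.zero_le _), hs0]
    rfl
  have hzpos : ∀ i t, 0 < t → t ≤ T i →
      ∃ y : {x // x ∈ U}, s i t = Sum.inr y ∧ z i t = y.1 := by
    intro i t ht htT
    obtain ⟨y, hy⟩ := hpos i t ht htT
    refine ⟨y, hy, ?_⟩
    show (if t ≤ T i then men2_val a U (s i t) else b) = y.1
    rw [if_pos htT, hy]
    rfl
  have hzlast : ∀ i, z i (T i + 1) = b := by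
    intro i
    exact if_neg (by omega)
  -- two equal inner vertices
  have hzeq : ∀ i i' t t', 0 < t → t ≤ T i → 0 < t' → t' ≤ T i' → z i t = z i' t' →
      i = i' ∧ t = t' := by
    intro i i' t t' h1 h2 h3 h4 h
    obtain ⟨y, hy1, hy2⟩ := hzpos i t h1 h2
    obtain ⟨y', hy1', hy2'⟩ := hzpos i' t' h3 h4
    apply hs3 i i' t t' h2 h4
    rw [hy1, hy1']
    congr 1
    apply Subtype.ext
    rw [← hy2, ← hy2', h]
  have hzadj : ∀ i t, t ≤ T i → adj (z i t) (z i (t + 1)) := by
    intro i t ht
    rcases Nat.lt_or_ge t (T i) with hlt | hge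
    · obtain ⟨y, hy1, hy2⟩ := hs1 i t hlt
      obtain ⟨y', hy1', hy2'⟩ := hzpos i (t + 1) (Nat.succ_pos _) hlt
      have hyy : y' = y := by
        rw [hy2] at hy1'
        exact (Sum.inr_injective hy1').symm
      rw [hy2', hyy]
      have h1 := hgt (s i t)
      rw [hy1] at h1
      rcases Nat.eq_zero_or_pos t with h0 | h0
      · rw [h0, hs0] at h1
        rw [h0, hz0]
        exact ((men2_mem_lr adj a b U i y.1).1 h1).2
      · obtain ⟨x, hx1, hx2⟩ := hzpos i t h0 ht
        rw [hx1] at h1
        rw [hx2]
        rcases ((men2_mem_rr adj a b U x y.1).1 h1).2 with h2 | h2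
        · exfalso
          have h3 : s i t = s i (t + 1) := by
            rw [hx1, hy2]
            congr 1
            exact Subtype.ext h2.symm
          have := (hs3 i i t (t + 1) ht hlt h3).2
          omega
        · exact h2
    · have hT : t = T i := le_antisymm ht hge
      rw [hT, hzlast]
      obtain ⟨j, hj⟩ := hs2 i
      have h1 := hgt (s i (T i))
      rw [hj] at h1
      rcases Nat.eq_zero_or_pos (T i) with h0 | h0
      · rw [h0, hs0] at h1
        rw [h0, hz0]
        exact ((men2_mem_ll adj a b U i j).1 h1).1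
      · obtain ⟨x, hx1, hx2⟩ := hzpos i (T i) h0 le_rfl
        rw [hx1] at h1
        rw [hx2]
        exact (men2_mem_rl adj a b U x j).1 h1
  have hzcase : ∀ i t, t ≤ T i + 1 → z i t ≠ a → z i t ≠ b → 0 < t ∧ t ≤ T i := by
    intro i t ht h1 h2
    constructor
    · by_contra h
      push Not at h
      have : t = 0 := by omega
      rw [this] at h1
      exact h1 (hz0 i)
    · by_contra h
      push Not at h
      have : t = T i + 1 := by omega
      rw [this] at h2
      exact h2 (hzlast i)
  let p : Fin k → List (Fin n) := fun i => (List.range (T i + 2)).map (z i)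
  have hpmem : ∀ i v, v ∈ p i ↔ ∃ t, t ≤ T i + 1 ∧ z i t = v := by
    intro i v
    show v ∈ (List.range (T i + 2)).map (z i) ↔ _
    rw [List.mem_map]
    constructor
    · rintro ⟨t, ht, h⟩
      rw [List.mem_range] at ht
      exact ⟨t, by omega, h⟩
    · rintro ⟨t, ht, h⟩
      exact ⟨t, List.mem_range.2 (by omega), h⟩
  have hdisj : ∀ i j, i ≠ j → ∀ v, v ∈ p i → v ∈ p j → v = a ∨ v = b := by
    intro i j hij v hvi hvj
    by_contra hv
    push Not at hv
    obtain ⟨t, ht, rfl⟩ := (hpmem i v).1 hvi
    obtain ⟨t', ht', h⟩ := (hpmem j _).1 hvj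
    obtain ⟨h1, h2⟩ := hzcase i t ht hv.1 hv.2
    obtain ⟨h3, h4⟩ := hzcase j t' ht' (by rw [h]; exact hv.1) (by rw [h]; exact hv.2)
    exact hij (hzeq i j t t' h1 h2 h3 h4 h.symm).1
  have hT0 : ∀ i, T i = 0 → i.val = 0 := by
    intro i h
    obtain ⟨j, hj⟩ := hs2 i
    have h1 := hgt (s i (T i))
    rw [hj, h, hs0] at h1
    exact ((men2_mem_ll adj a b U i j).1 h1).2.1
  have hpos' : ∀ i j, i ≠ j → p i = p j → T i = 0 := by
    intro i j hij h
    by_contra hT
    have hTpos : 0 < T i := Nat.pos_of_ne_zero hT
    obtain ⟨y, hy1, hy2⟩ := hzpos i 1 Nat.one_pos hTpos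
    have h1 : y.1 ∈ p i := (hpmem i _).2 ⟨1, by omega, hy2⟩
    have h2 : y.1 ∈ p j := by
      rw [← h]
      exact h1
    have hyU := (hUmem y.1).1 y.2
    rcases hdisj i j hij y.1 h1 h2 with h3 | h3
    · exact hyU.2.1 h3
    · exact hyU.2.2 h3
  refine ⟨p, ?_, ?_, hdisj⟩
  · intro i j h
    by_contra hij
    have h1 := hT0 i (hpos' i j hij h)
    have h2 := hT0 j (hpos' j i (Ne.symm hij) h.symm)
    exact hij (Fin.ext (h1.trans h2.symm))
  · intro i
    refine ⟨?_, ?_, ?_, ?_, ?_⟩
    · show ((List.range (T i + 2)).map (z i)).head? = some a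
      rw [List.head?_map, List.head?_range]
      simp [hz0]
    · show ((List.range (T i + 2)).map (z i)).getLast? = some b
      rw [List.range_succ, List.map_append, List.map_singleton, List.getLast?_append]
      simp [hzlast]
    · show ((List.range (T i + 2)).map (z i)).Nodup
      rw [List.nodup_map_iff_inj_on List.nodup_range]
      intro t ht t' ht' h
      rw [List.mem_range] at ht ht'
      by_cases ha1 : z i t = a
      · have h0 : ∀ τ, τ < T i + 2 → z i τ = a → τ = 0 := by
          intro τ hτ hza
          by_contra hne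
          rcases Nat.lt_or_ge (T i) τ with hlt | hge
          · have : τ = T i + 1 := by omega
            rw [this, hzlast] at hza
            exact hab hza.symm
          · obtain ⟨y, _, hy2⟩ := hzpos i τ (Nat.pos_of_ne_zero hne) hge
            rw [hy2] at hza
            exact ((hUmem y.1).1 y.2).2.1 hza
        rw [h0 t ht ha1, h0 t' ht' (h ▸ ha1)]
      · by_cases hb1 : z i t = b
        · have h0 : ∀ τ, τ < T i + 2 → z i τ = b → τ = T i + 1 := by
            intro τ hτ hzb
            by_contra hne
            rcases Nat.eq_zero_or_pos τ with h0 | h0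
            · rw [h0, hz0] at hzb
              exact hab hzb
            · obtain ⟨y, _, hy2⟩ := hzpos i τ h0 (by omega)
              rw [hy2] at hzb
              exact ((hUmem y.1).1 y.2).2.2 hzb
          rw [h0 t ht hb1, h0 t' ht' (h ▸ hb1)]
        · obtain ⟨h1, h2⟩ := hzcase i t (by omega) ha1 hb1
          obtain ⟨h3, h4⟩ := hzcase i t' (by omega) (h ▸ ha1) (h ▸ hb1)
          exact (hzeq i i t t' h1 h2 h3 h4 h).2
    · intro v hv
      obtain ⟨t, ht, rfl⟩ := (hpmem i v).1 hv
      show z i t ∈ (W : Set (Fin n))
      rw [Finset.mem_coe]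
      by_cases ha1 : z i t = a
      · rw [ha1]
        exact ha'
      · by_cases hb1 : z i t = b
        · rw [hb1]
          exact hb'
        · obtain ⟨h1, h2⟩ := hzcase i t ht ha1 hb1
          obtain ⟨y, _, hy2⟩ := hzpos i t h1 h2
          rw [hy2]
          exact ((hUmem y.1).1 y.2).1
    · intro j u w hu hw
      have hlen : ∀ τ v, (p i)[τ]? = some v → τ < T i + 2 ∧ z i τ = v := by
        intro τ v h
        have h' : ((List.range (T i + 2)).map (z i))[τ]? = some v := h
        rw [List.getElem?_map] at h'
        rcases Nat.lt_or_ge τ (T i + 2) with hlt | hge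
        · rw [List.getElem?_range hlt] at h'
          refine ⟨hlt, ?_⟩
          simpa using h'
        · rw [List.getElem?_eq_none (by rw [List.length_range]; exact hge)] at h'
          simp at h'
      obtain ⟨_, hu2⟩ := hlen j u hu
      obtain ⟨hw1, hw2⟩ := hlen (j + 1) w hw
      rw [← hu2, ← hw2]
      exact hzadj i j (by omega)

end Pool.MDP
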