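import Pool.Agent.MDP.Stmts

/-!
Minimal weights by compactness.
-/

open Finset Filter Topology

noncomputable section

namespace Pool.MDP

theorem MinW_eps {V : Type} [Fintype V] [DecidableEq V] (F : Finset (Finset V)) (k : ℝ)
    (w : V → ℝ) (v : V) (δ : ℝ) (hδ : 0 < δ)
    (h : ∀ T ∈ F, v ∈ T → k < wt w T) :
    ∃ ε : ℝ, 0 < ε ∧ ε ≤ δ ∧ ∀ T ∈ F, v ∈ T → ε ≤ wt w T - k := by
  have h1 : ∀ᶠ ε in 𝓝[>] (0:ℝ), ∀ T ∈ F, (v ∈ T → ε ≤ wt w T - k) := by
    rw [Filter.eventually_all_finset]
    intro T hT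
    by_cases hv : v ∈ T
    · have : ∀ᶠ ε in 𝓝[>] (0:ℝ), ε ≤ wt w T - k := by
        have h3 : (0:ℝ) < wt w T - k := by linarith [h T hT hv]
        exact (eventually_le_nhds h3).filter_mono nhdsWithin_le_nhds
      filter_upwards [this] with ε hε _ using hε
    · exact Eventually.of_forall fun ε hε => absurd hε hv
  have h2 : ∀ᶠ ε in 𝓝[>] (0:ℝ), ε ≤ δ :=
    (eventually_le_nhds hδ).filter_mono nhdsWithin_le_nhds
  have h3 : ∀ᶠ ε in 𝓝[>] (0:ℝ), 0 < ε := eventually_mem_nhdsWithin
  obtain ⟨ε, ha, hb, hc⟩ := (h1.and (h2.and h3)).exists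
  exact ⟨ε, hc, hb, ha⟩

theorem minW : Stmt_MinW := by
  intro V _ _ F k θ hθ hk
  set K : Set (V → ℝ) := {w | (∀ v, θ ≤ w v ∧ w v ≤ 1) ∧ ∀ T ∈ F, k ≤ wt w T} with hK
  have hcontwt : ∀ T : Finset V, Continuous fun w : V → ℝ => wt w T := by
    intro T
    unfold wt
    exact continuous_finset_sum _ fun v _ => continuous_apply v
  have hclosed : IsClosed K := by
    have : K = (⋂ v, {w : V → ℝ | θ ≤ w v ∧ w v ≤ 1}) ∩ ⋂ T ∈ F, {w : V → ℝ | k ≤ wt w T} := by
      ext w
      simp [hK]
    rw [this]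
    refine IsClosed.inter (isClosed_iInter fun v => ?_) (isClosed_biInter fun T _ => ?_)
    · exact (isClosed_le continuous_const (continuous_apply v)).inter
        (isClosed_le (continuous_apply v) continuous_const)
    · exact isClosed_le continuous_const (hcontwt T)
  have hcomp : IsCompact K := by
    have hbox : IsCompact (Set.Icc (fun _ : V => θ) (fun _ : V => (1:ℝ))) := isCompact_Icc
    refine hbox.of_isClosed_subset hclosed ?_
    intro w hw
    exact ⟨fun v => (hw.1 v).1, fun v => (hw.1 v).2⟩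
  have hne : K.Nonempty := by
    refine ⟨fun _ => 1, fun v => ⟨hθ, le_refl _⟩, fun T hT => ?_⟩
    have := hk T hT
    simpa [wt] using this
  have hcont : Continuous fun w : V → ℝ => wt w Finset.univ := hcontwt _
  obtain ⟨w, hwK, hmin⟩ := hcomp.exists_isMinOn hne hcont.continuousOn
  refine ⟨w, hwK.1, hwK.2, ?_⟩
  intro v hv
  by_contra hcon
  push Not at hcon
  have hgap : ∀ T ∈ F, v ∈ T → k < wt w T := fun T hT hvT =>
    lt_of_le_of_ne (hwK.2 T hT) (Ne.symm (hcon T hT hvT))
  obtain ⟨ε, hε, hεδ, hεT⟩ := MinW_eps F k w v (w v - θ) (by linarith) hgap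
  set w' : V → ℝ := fun x => if x = v then w v - ε else w x with hw'
  have hsum : ∀ T : Finset V, wt w' T = wt w T - if v ∈ T then ε else 0 := by
    intro T
    unfold wt
    have : ∀ x ∈ T, w' x = w x - (if x = v then ε else 0) := by
      intro x _
      by_cases hx : x = v
      · subst hx; simp [hw']
      · simp [hw', hx]
    rw [Finset.sum_congr rfl this, Finset.sum_sub_distrib]
    congr 1
    rw [Finset.sum_ite_eq' T v]
  have hw'K : w' ∈ K := by
    refine ⟨fun x => ?_, fun T hT => ?_⟩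
    · by_cases hx : x = v
      · subst hx
        have h1 := (hwK.1 x).2
        simp only [hw', if_true]
        constructor <;> linarith
      · simp only [hw', hx, if_false]
        exact hwK.1 x
    · rw [hsum T]
      by_cases hvT : v ∈ T
      · rw [if_pos hvT]
        have := hεT T hT hvT
        linarith
      · rw [if_neg hvT]
        have := hwK.2 T hT
        linarith
  have h5 : wt w Finset.univ ≤ wt w' Finset.univ := hmin hw'K
  rw [hsum, if_pos (Finset.mem_univ v)] at h5
  linarith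

end Pool.MDP
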