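import Pool.Agent.MDP.Stmts

/-!
Module Region (sections 0, 1, 2, 4).
-/

open Finset

noncomputable section

namespace Pool.MDP

variable {V : Type} [Fintype V] [DecidableEq V] {adj : V → V → Prop} {w : V → ℝ} {c : ℝ}

lemma region_wt_mono (hw : ∀ v, 0 < w v) {S T : Finset V} (h : S ⊆ T) : wt w S ≤ wt w T :=
  Finset.sum_le_sum_of_subset_of_nonneg h (fun v _ _ => (hw v).le)

lemma region_wt_nonneg (hw : ∀ v, 0 < w v) (S : Finset V) : 0 ≤ wt w S :=
  Finset.sum_nonneg (fun v _ => (hw v).le)

lemma region_wt_union {S T : Finset V} (h : Disjoint S T) : wt w (S ∪ T) = wt w S + wt w T :=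
  Finset.sum_union h

lemma region_wt_union_inter (S T : Finset V) :
    wt w (S ∪ T) + wt w (S ∩ T) = wt w S + wt w T :=
  Finset.sum_union_inter

lemma region_wt_inter_sdiff (S T : Finset V) :
    wt w (S ∩ T) + wt w (S \ T) = wt w S := by
  rw [← region_wt_union (Finset.disjoint_sdiff_inter S T).symm, Finset.union_comm,
    Finset.sdiff_union_inter]

lemma region_wt_TT {A B : Finset V} (h : Disjoint A B) :
    wt w (TT A B) = wt w univ - wt w A - wt w B := by
  have h1 : wt w (TT A B) + wt w (A ∪ B) = wt w univ := by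
    rw [← region_wt_union (by
      unfold TT
      exact disjoint_compl_left), TT, Finset.union_comm, Finset.union_compl]
  rw [region_wt_union h] at h1
  linarith

lemma region_corner_sum {A₁ B₁ A₂ B₂ : Finset V} (h1 : Disjoint A₁ B₁) (h2 : Disjoint A₂ B₂) :
    wt w (TT (A₁ ∩ A₂) (B₁ ∪ B₂)) + wt w (TT (A₁ ∪ A₂) (B₁ ∩ B₂)) =
      wt w (TT A₁ B₁) + wt w (TT A₂ B₂) := by
  have d1 : Disjoint (A₁ ∩ A₂) (B₁ ∪ B₂) := by
    rw [Finset.disjoint_left] at *
    intro x hx hx'
    rw [Finset.mem_inter] at hx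
    rw [Finset.mem_union] at hx'
    rcases hx' with h | h
    · exact h1 hx.1 h
    · exact h2 hx.2 h
  have d2 : Disjoint (A₁ ∪ A₂) (B₁ ∩ B₂) := by
    rw [Finset.disjoint_left] at *
    intro x hx hx'
    rw [Finset.mem_union] at hx
    rw [Finset.mem_inter] at hx'
    rcases hx with h | h
    · exact h1 h hx'.1
    · exact h2 h hx'.2
  rw [region_wt_TT h1, region_wt_TT h2, region_wt_TT d1, region_wt_TT d2]
  have e1 := region_wt_union_inter (w := w) A₁ A₂
  have e2 := region_wt_union_inter (w := w) B₁ B₂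
  linarith

lemma region_sep_cap {A₁ B₁ A₂ B₂ : Finset V} (h1 : Sep adj A₁ B₁) (h2 : Sep adj A₂ B₂)
    (hA : (A₁ ∩ A₂).Nonempty) : Sep adj (A₁ ∩ A₂) (B₁ ∪ B₂) := by
  refine ⟨hA, h1.2.1.mono Finset.subset_union_left, ?_, ?_⟩
  · rw [Finset.disjoint_left]
    intro x hx hx'
    rw [Finset.mem_inter] at hx
    rw [Finset.mem_union] at hx'
    rcases hx' with h | h
    · exact (Finset.disjoint_left.1 h1.2.2.1) hx.1 h
    · exact (Finset.disjoint_left.1 h2.2.2.1) hx.2 h
  · intro a ha b hb
    rw [Finset.mem_inter] at ha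
    rw [Finset.mem_union] at hb
    rcases hb with h | h
    · exact h1.2.2.2 a ha.1 b h
    · exact h2.2.2.2 a ha.2 b h

lemma region_sep_rev {A B : Finset V} (h : Sep adj A B) : Sep (rev adj) B A :=
  ⟨h.2.1, h.1, h.2.2.1.symm, fun b hb a ha => h.2.2.2 a ha b hb⟩

lemma region_TT_comm (A B : Finset V) : TT A B = TT B A := by
  unfold TT
  rw [Finset.union_comm]

lemma region_tight_rev {A B : Finset V} (h : Tight adj w c A B) : Tight (rev adj) w c B A :=
  ⟨region_sep_rev h.1, by rw [region_TT_comm]; exact h.2⟩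

lemma region_rev_rev : rev (rev adj) = adj := rfl

lemma region_tight_rev_iff {A B : Finset V} : Tight (rev adj) w c A B ↔ Tight adj w c B A :=
  ⟨fun h => region_tight_rev h, fun h => region_tight_rev h⟩

lemma region_cov_rev : Cov (rev adj) w c = Cov adj w c := by
  ext x
  simp only [Cov, Finset.mem_filter, Finset.mem_univ, true_and]
  constructor
  · rintro ⟨A, B, h, hx⟩
    exact ⟨B, A, region_tight_rev_iff.1 h, by rw [region_TT_comm]; exact hx⟩
  · rintro ⟨A, B, h, hx⟩
    exact ⟨B, A, region_tight_rev_iff.2 h, by rw [region_TT_comm]; exact hx⟩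

lemma region_sep_cup {A₁ B₁ A₂ B₂ : Finset V} (h1 : Sep adj A₁ B₁) (h2 : Sep adj A₂ B₂)
    (hB : (B₁ ∩ B₂).Nonempty) : Sep adj (A₁ ∪ A₂) (B₁ ∩ B₂) := by
  have := region_sep_cap (region_sep_rev h1) (region_sep_rev h2) hB
  exact region_sep_rev this

lemma region_tight_corners (hc : ∀ A B, Sep adj A B → c ≤ wt w (TT A B))
    {A₁ B₁ A₂ B₂ : Finset V} (h1 : Tight adj w c A₁ B₁) (h2 : Tight adj w c A₂ B₂)
    (hA : (A₁ ∩ A₂).Nonempty) (hB : (B₁ ∩ B₂).Nonempty) :
    Tight adj w c (A₁ ∩ A₂) (B₁ ∪ B₂) ∧ Tight adj w c (A₁ ∪ A₂) (B₁ ∩ B₂) := by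
  have s1 := region_sep_cap h1.1 h2.1 hA
  have s2 := region_sep_cup h1.1 h2.1 hB
  have e := region_corner_sum (w := w) h1.1.2.2.1 h2.1.2.2.1
  rw [h1.2, h2.2] at e
  have l1 := hc _ _ s1
  have l2 := hc _ _ s2
  exact ⟨⟨s1, by linarith⟩, ⟨s2, by linarith⟩⟩

lemma region_compl {A₁ B₁ A₂ B₂ : Finset V} (h1 : Tight adj w c A₁ B₁)
    (h2 : Tight adj w c A₂ B₂) (hB : B₁ ∩ B₂ = ∅) :
    wt w (TT (A₁ ∩ A₂) (B₁ ∪ B₂)) + wt w ((A₁ ∪ A₂)ᶜ) = 2 * c := by
  have e := region_corner_sum (w := w) h1.1.2.2.1 h2.1.2.2.1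
  rw [h1.2, h2.2, hB] at e
  have : TT (A₁ ∪ A₂) (∅ : Finset V) = (A₁ ∪ A₂)ᶜ := by
    unfold TT
    rw [Finset.union_empty]
  rw [this] at e
  linarith

lemma region_TT_sub_cov {A B : Finset V} (h : Tight adj w c A B) : TT A B ⊆ Cov adj w c := by
  intro x hx
  simp only [Cov, Finset.mem_filter, Finset.mem_univ, true_and]
  exact ⟨A, B, h, hx⟩

lemma region_mem_TT {A B : Finset V} {x : V} : x ∈ TT A B ↔ x ∉ A ∧ x ∉ B := by
  simp [TT]

/-- Lemma (1) -/
lemma region_lem1 (hw : ∀ v, 0 < w v) (hc : ∀ A B, Sep adj A B → c ≤ wt w (TT A B))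
    {E BE A B : Finset V} (hE : Tight adj w c E BE)
    (hmin : ∀ A' B', Tight adj w c A' B' → A' ⊆ E → A' = E) (hA : Tight adj w c A B)
    (hAE : (A ∩ E).Nonempty) (hEA : ¬ E ⊆ A) :
    B ∩ BE = ∅ ∧ wt w ((A ∪ E)ᶜ) < c ∧ wt w (B ∩ Cov adj w c) < wt w (E ∩ Cov adj w c) := by
  have hB : B ∩ BE = ∅ := by
    by_contra hne
    have := (region_tight_corners hc hA hE hAE (Finset.nonempty_iff_ne_empty.2 hne)).1
    have h2 := hmin _ _ this Finset.inter_subset_right
    exact hEA (by rw [← h2]; exact Finset.inter_subset_left)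
  have hlt : wt w ((A ∪ E)ᶜ) < c := by
    have e := region_compl hA hE hB
    have s := region_sep_cap hA.1 hE.1 hAE
    have l := hc _ _ s
    have hne : wt w (TT (A ∩ E) (B ∪ BE)) ≠ c := by
      intro h
      have h2 := hmin _ _ ⟨s, h⟩ Finset.inter_subset_right
      exact hEA (by rw [← h2]; exact Finset.inter_subset_left)
    have l' := lt_of_le_of_ne l (Ne.symm hne)
    linarith
  refine ⟨hB, hlt, ?_⟩
  -- the weights
  have hdisjAB := hA.1.2.2.1
  have e1 : wt w (B \ E) + wt w (TT A B \ E) ≤ wt w ((A ∪ E)ᶜ) := by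
    rw [← region_wt_union (by
      rw [Finset.disjoint_left]
      intro x hx hx'
      rw [Finset.mem_sdiff] at hx hx'
      exact (region_mem_TT.1 hx'.1).2 hx.1)]
    apply region_wt_mono hw
    intro x hx
    rw [Finset.mem_union, Finset.mem_sdiff, Finset.mem_sdiff] at hx
    rw [Finset.mem_compl, Finset.mem_union]
    rintro (h | h)
    · rcases hx with hx | hx
      · exact (Finset.disjoint_left.1 hdisjAB) h hx.1
      · exact (region_mem_TT.1 hx.1).1 h
    · rcases hx with hx | hx
      · exact hx.2 h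
      · exact hx.2 h
  have e2 : wt w (TT A B ∩ E) + wt w (TT A B \ E) = c := by
    rw [region_wt_inter_sdiff, hA.2]
  have e3 : wt w (B \ E) < wt w (TT A B ∩ E) := by linarith
  have e4 : wt w (B ∩ Cov adj w c) ≤ wt w (B ∩ Cov adj w c ∩ E) + wt w (B \ E) := by
    rw [← region_wt_inter_sdiff (B ∩ Cov adj w c) E]
    have : wt w ((B ∩ Cov adj w c) \ E) ≤ wt w (B \ E) :=
      region_wt_mono hw (Finset.sdiff_subset_sdiff Finset.inter_subset_left (le_refl _))
    linarith
  have e5 : wt w (B ∩ Cov adj w c ∩ E) + wt w (TT A B ∩ E) ≤ wt w (E ∩ Cov adj w c) := by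
    rw [← region_wt_union (by
      rw [Finset.disjoint_left]
      intro x hx hx'
      rw [Finset.mem_inter, Finset.mem_inter] at hx
      rw [Finset.mem_inter] at hx'
      exact (region_mem_TT.1 hx'.1).2 hx.1.1)]
    apply region_wt_mono hw
    intro x hx
    rw [Finset.mem_union, Finset.mem_inter, Finset.mem_inter, Finset.mem_inter] at hx
    rw [Finset.mem_inter]
    rcases hx with hx | hx
    · exact ⟨hx.2, hx.1.2⟩
    · exact ⟨hx.2, region_TT_sub_cov hA hx.1⟩
  linarith

/-- inclusion-minimal good end `F` and tight `A` disjoint from it -/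
def RegionTriple (adj : V → V → Prop) (w : V → ℝ) (c : ℝ) (F A : Finset V) : Prop :=
  (∃ B, Tight adj w c F B) ∧ (∃ B, Tight adj w c A B) ∧
  (∀ A' B', Tight adj w c A' B' → A' ⊆ F → A' = F) ∧
  (∀ A' B', Tight adj w c A' B' → (A' ∩ F).Nonempty → F ⊆ A') ∧ Disjoint F A

lemma region_core (hw : ∀ v, 0 < w v) (hc : ∀ A B, Sep adj A B → c ≤ wt w (TT A B))
    (hnu : ∀ A B, Tight adj w c A B → c < wt w (A ∩ Cov adj w c) ∧ c < wt w (B ∩ Cov adj w c))
    {F A₀ : Finset V} (hT : RegionTriple adj w c F A₀)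
    (hmax1 : ∀ F' A', RegionTriple adj w c F' A' →
      toLex (wt w (A' ∩ Cov adj w c), A'.card) ≤ toLex (wt w (A₀ ∩ Cov adj w c), A₀.card))
    (hmax2 : ∀ F' A', RegionTriple (rev adj) w c F' A' →
      toLex (wt w (A' ∩ Cov adj w c), A'.card) ≤ toLex (wt w (A₀ ∩ Cov adj w c), A₀.card)) :
    ∀ E BE, Tight adj w c E BE → Disjoint E A₀ →
      (∀ A B, Tight adj w c A B → A ⊆ E → A = E) →
      (∀ A B, Tight adj w c A B → (A ∩ E).Nonempty → E ⊆ A) ∧
      (∀ A B, Tight adj w c A B → Disjoint A E → A₀ ⊆ A → A = A₀) := by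
  classical
  obtain ⟨⟨BF, hF⟩, ⟨B₀, hA₀⟩, hFmin, hFgood, hFA⟩ := hT
  have hwA : ∀ S : Finset V, wt w (S ∩ Cov adj w c) ≤ wt w S := fun S =>
    region_wt_mono hw Finset.inter_subset_left
  intro E BE hE hEA₀ hmin
  have hgood : ∀ A B, Tight adj w c A B → (A ∩ E).Nonempty → E ⊆ A := by
    by_contra hcon
    push Not at hcon
    -- E is not F
    have hEF : Disjoint E F := by
      by_contra hne
      rw [Finset.disjoint_iff_inter_eq_empty, ← Ne, ← Finset.nonempty_iff_ne_empty] at hne
      have h1 := hFgood E BE hE hne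
      have h2 := hmin F BF hF h1
      obtain ⟨A, B, hAB, hA1, hA2⟩ := hcon
      rw [← h2] at hA1 hA2
      exact hA2 (hFgood A B hAB hA1)
    -- choice of the crossing pair
    let S : Finset (Finset V × Finset V) := Finset.univ.filter
      (fun q => Tight adj w c q.1 q.2 ∧ (q.1 ∩ E).Nonempty ∧ ¬ E ⊆ q.1)
    have hS : S.Nonempty := by
      obtain ⟨A, B, hAB, hA1, hA2⟩ := hcon
      exact ⟨(A, B), by simp only [S, Finset.mem_filter, Finset.mem_univ, true_and]; exact ⟨hAB, hA1, hA2⟩⟩
    obtain ⟨⟨A, B⟩, hABS, hABmin⟩ := Finset.exists_min_image S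
      (fun q => toLex (wt w (q.2 ∩ Cov adj w c), q.2.card)) hS
    simp only [S, Finset.mem_filter, Finset.mem_univ, true_and] at hABS
    obtain ⟨hAB, hAE, hEA⟩ := hABS
    have hABmin' : ∀ A' B', Tight adj w c A' B' → (A' ∩ E).Nonempty → ¬ E ⊆ A' →
        toLex (wt w (B ∩ Cov adj w c), B.card) ≤ toLex (wt w (B' ∩ Cov adj w c), B'.card) := by
      intro A' B' h1 h2 h3
      exact hABmin (A', B') (by
        simp only [S, Finset.mem_filter, Finset.mem_univ, true_and]; exact ⟨h1, h2, h3⟩)
    obtain ⟨hBBE, hlt, -⟩ := region_lem1 hw hc hE hmin hAB hAE hEA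
    -- B is inclusion-minimal
    have hBmin : ∀ B' A', Tight (rev adj) w c B' A' → B' ⊆ B → B' = B := by
      intro B' A' h' hB'
      rw [region_tight_rev_iff] at h'
      by_contra hne
      have hAA' : (A ∩ A').Nonempty := by
        by_contra hemp
        rw [Finset.not_nonempty_iff_eq_empty] at hemp
        have hsub : A ⊆ TT A' B' := by
          intro x hx
          rw [region_mem_TT]
          refine ⟨fun hx' => ?_, fun hx' => ?_⟩
          · have : x ∈ A ∩ A' := Finset.mem_inter.2 ⟨hx, hx'⟩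
            rw [hemp] at this
            exact absurd this (Finset.notMem_empty x)
          · exact (Finset.disjoint_left.1 hAB.1.2.2.1) hx (hB' hx')
        have h1 := region_wt_mono hw hsub
        rw [h'.2] at h1
        have h2 := (hnu A B hAB).1
        have h3 := hwA A
        linarith
      have hBB' : B ∩ B' = B' := Finset.inter_eq_right.2 hB'
      have hcor := (region_tight_corners hc hAB h' hAA' (by rw [hBB']; exact h'.1.2.1)).2
      rw [hBB'] at hcor
      have hnE : ¬ E ⊆ A ∪ A' := by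
        intro hsub
        have hsub2 : B' ⊆ TT E BE := by
          intro x hx
          rw [region_mem_TT]
          refine ⟨fun hxE => ?_, fun hxB => ?_⟩
          · exact (Finset.disjoint_left.1 hcor.1.2.2.1) (hsub hxE) hx
          · have : x ∈ B ∩ BE := Finset.mem_inter.2 ⟨hB' hx, hxB⟩
            rw [hBBE] at this
            exact absurd this (Finset.notMem_empty x)
        have h1 := region_wt_mono hw hsub2
        rw [hE.2] at h1
        have h2 := (hnu A' B' h').2
        have h3 := hwA B'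
        linarith
      have hmeet : ((A ∪ A') ∩ E).Nonempty := hAE.mono
        (Finset.inter_subset_inter_right Finset.subset_union_left)
      have hle := hABmin' _ _ hcor hmeet hnE
      rw [Prod.Lex.toLex_le_toLex] at hle
      have hcard : B'.card < B.card := Finset.card_lt_card
        (Finset.ssubset_iff_subset_ne.2 ⟨hB', hne⟩)
      have hnu' : wt w (B' ∩ Cov adj w c) ≤ wt w (B ∩ Cov adj w c) :=
        region_wt_mono hw (Finset.inter_subset_inter_right hB')
      rcases hle with h | h
      · linarith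
      · omega
    -- B is good
    have hBgood : ∀ B' A', Tight (rev adj) w c B' A' → (B' ∩ B).Nonempty → B ⊆ B' := by
      intro B' A' h' hmeet
      by_contra hnot
      have hc' : ∀ A B, Sep (rev adj) A B → c ≤ wt w (TT A B) := by
        intro A B h
        rw [region_TT_comm]
        exact hc _ _ (region_sep_rev h)
      obtain ⟨hA'A, -, -⟩ := region_lem1 hw hc' (region_tight_rev hAB) hBmin h' hmeet hnot
      rw [region_tight_rev_iff] at h'
      -- A' does not meet A
      have hA'E : (A' ∩ E).Nonempty := by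
        by_contra hemp
        rw [Finset.not_nonempty_iff_eq_empty] at hemp
        have hsub : A' ⊆ (A ∪ E)ᶜ := by
          intro x hx
          rw [Finset.mem_compl, Finset.mem_union]
          rintro (h | h)
          · have : x ∈ A' ∩ A := Finset.mem_inter.2 ⟨hx, h⟩
            rw [hA'A] at this
            exact absurd this (Finset.notMem_empty x)
          · have : x ∈ A' ∩ E := Finset.mem_inter.2 ⟨hx, h⟩
            rw [hemp] at this
            exact absurd this (Finset.notMem_empty x)
        have h1 := region_wt_mono hw hsub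
        have h2 := (hnu A' B' h').1
        have h3 := hwA A'
        linarith
      have hEA' : ¬ E ⊆ A' := by
        intro hsub
        obtain ⟨x, hx⟩ := hAE
        rw [Finset.mem_inter] at hx
        have : x ∈ A' ∩ A := Finset.mem_inter.2 ⟨hsub hx.2, hx.1⟩
        rw [hA'A] at this
        exact absurd this (Finset.notMem_empty x)
      obtain ⟨-, hlt', -⟩ := region_lem1 hw hc hE hmin h' hA'E hEA'
      have hsub1 : A \ E ⊆ (A' ∪ E)ᶜ := by
        intro x hx
        rw [Finset.mem_sdiff] at hx
        rw [Finset.mem_compl, Finset.mem_union]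
        rintro (h | h)
        · have : x ∈ A' ∩ A := Finset.mem_inter.2 ⟨h, hx.1⟩
          rw [hA'A] at this
          exact absurd this (Finset.notMem_empty x)
        · exact hx.2 h
      have h1 := region_wt_mono hw hsub1
      have hsub2 : A₀ ∪ F ⊆ (A \ E) ∪ (A ∪ E)ᶜ := by
        intro x hx
        rw [Finset.mem_union] at hx
        have hxE : x ∉ E := by
          rcases hx with hx | hx
          · exact fun h => (Finset.disjoint_left.1 hEA₀) h hx
          · exact fun h => (Finset.disjoint_left.1 hEF) h hx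
        rw [Finset.mem_union, Finset.mem_sdiff, Finset.mem_compl, Finset.mem_union]
        by_cases hxA : x ∈ A
        · exact Or.inl ⟨hxA, hxE⟩
        · exact Or.inr (by rintro (h | h); exacts [hxA h, hxE h])
      have h2 := region_wt_mono hw hsub2
      rw [region_wt_union hFA.symm, region_wt_union (by
        rw [Finset.disjoint_left]
        intro x hx hx'
        rw [Finset.mem_sdiff] at hx
        rw [Finset.mem_compl, Finset.mem_union] at hx'
        exact hx' (Or.inl hx.1))] at h2
      have h3 := (hnu A₀ B₀ hA₀).1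
      have h4 := (hnu F BF hF).1
      have h5 := hwA A₀
      have h6 := hwA F
      linarith
    -- the triple (rev adj, B, BE)
    have htriple : RegionTriple (rev adj) w c B BE := by
      refine ⟨⟨A, region_tight_rev hAB⟩, ⟨E, region_tight_rev hE⟩, ?_, ?_, ?_⟩
      · intro A' B' h1 h2
        exact hBmin A' B' h1 h2
      · intro A' B' h1 h2
        exact hBgood A' B' h1 h2
      · rw [Finset.disjoint_iff_inter_eq_empty]
        exact hBBE
    have hle := hmax2 _ _ htriple
    rw [Prod.Lex.toLex_le_toLex] at hle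
    have hle' : wt w (BE ∩ Cov adj w c) ≤ wt w (A₀ ∩ Cov adj w c) := by
      rcases hle with h | h
      · exact h.le
      · exact h.1.le
    -- nu BE = nu V - nu E - c
    have hpart : wt w (BE ∩ Cov adj w c) + wt w (E ∩ Cov adj w c) + c =
        wt w (Cov adj w c) := by
      have h1 : Cov adj w c = (BE ∩ Cov adj w c) ∪ (E ∩ Cov adj w c) ∪ TT E BE := by
        ext x
        simp only [Finset.mem_union, Finset.mem_inter, region_mem_TT]
        constructor
        · intro hx
          by_cases h1 : x ∈ BE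
          · exact Or.inl (Or.inl ⟨h1, hx⟩)
          · by_cases h2 : x ∈ E
            · exact Or.inl (Or.inr ⟨h2, hx⟩)
            · exact Or.inr ⟨h2, h1⟩
        · rintro ((h | h) | h)
          · exact h.2
          · exact h.2
          · exact region_TT_sub_cov hE (region_mem_TT.2 h)
      have h2 : wt w (Cov adj w c) = wt w ((BE ∩ Cov adj w c) ∪ (E ∩ Cov adj w c) ∪ TT E BE) := by
        rw [← h1]
      rw [h2, region_wt_union, region_wt_union, hE.2]
      · rw [Finset.disjoint_left]
        intro x hx hx'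
        exact (Finset.disjoint_left.1 hE.1.2.2.1) (Finset.mem_inter.1 hx').1 (Finset.mem_inter.1 hx).1
      · rw [Finset.disjoint_left]
        intro x hx hx'
        rw [region_mem_TT] at hx'
        rw [Finset.mem_union, Finset.mem_inter, Finset.mem_inter] at hx
        rcases hx with h | h
        · exact hx'.2 h.1
        · exact hx'.1 h.1
    have hall : wt w (A₀ ∩ Cov adj w c) + wt w (E ∩ Cov adj w c) + wt w (F ∩ Cov adj w c) ≤
        wt w (Cov adj w c) := by
      rw [← region_wt_union, ← region_wt_union]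
      · apply region_wt_mono hw
        intro x hx
        rw [Finset.mem_union, Finset.mem_union, Finset.mem_inter, Finset.mem_inter,
          Finset.mem_inter] at hx
        rcases hx with (h | h) | h
        · exact h.2
        · exact h.2
        · exact h.2
      · rw [Finset.disjoint_left]
        intro x hx hx'
        rw [Finset.mem_union, Finset.mem_inter, Finset.mem_inter] at hx
        rw [Finset.mem_inter] at hx'
        rcases hx with h | h
        · exact (Finset.disjoint_left.1 hFA) hx'.1 h.1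
        · exact (Finset.disjoint_left.1 hEF) h.1 hx'.1
      · rw [Finset.disjoint_left]
        intro x hx hx'
        exact (Finset.disjoint_left.1 hEA₀) (Finset.mem_inter.1 hx').1 (Finset.mem_inter.1 hx).1
    have h4 := (hnu F BF hF).1
    linarith
  refine ⟨hgood, ?_⟩
  intro A B hAB hAE hA
  have htriple : RegionTriple adj w c E A :=
    ⟨⟨BE, hE⟩, ⟨B, hAB⟩, hmin, hgood, hAE.symm⟩
  have hle := hmax1 _ _ htriple
  rw [Prod.Lex.toLex_le_toLex] at hle
  have h1 : wt w (A₀ ∩ Cov adj w c) ≤ wt w (A ∩ Cov adj w c) :=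
    region_wt_mono hw (Finset.inter_subset_inter_right hA)
  rcases hle with h | h
  · linarith
  · exact (Finset.eq_of_subset_of_card_le hA h.2).symm

/-- existence of a triple -/
lemma region_exists_triple (hw : ∀ v, 0 < w v) (hc0 : 0 ≤ c)
    (hc : ∀ A B, Sep adj A B → c ≤ wt w (TT A B))
    (hnu : ∀ A B, Tight adj w c A B → c < wt w (A ∩ Cov adj w c) ∧ c < wt w (B ∩ Cov adj w c))
    {F BF : Finset V} (hF : Tight adj w c F BF)
    (hFmin : ∀ A B, Tight adj w c A B →
      toLex (wt w (F ∩ Cov adj w c), F.card) ≤ toLex (wt w (A ∩ Cov adj w c), A.card) ∧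
      toLex (wt w (F ∩ Cov adj w c), F.card) ≤ toLex (wt w (B ∩ Cov adj w c), B.card)) :
    ∃ A, RegionTriple adj w c F A := by
  have hmin : ∀ A' B', Tight adj w c A' B' → A' ⊆ F → A' = F := by
    intro A' B' h hsub
    by_contra hne
    have hcard : A'.card < F.card := Finset.card_lt_card
      (Finset.ssubset_iff_subset_ne.2 ⟨hsub, hne⟩)
    have hle := (hFmin _ _ h).1
    rw [Prod.Lex.toLex_le_toLex] at hle
    have h1 : wt w (A' ∩ Cov adj w c) ≤ wt w (F ∩ Cov adj w c) :=
      region_wt_mono hw (Finset.inter_subset_inter_right hsub)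
    rcases hle with h | h
    · linarith
    · omega
  have hgood : ∀ A' B', Tight adj w c A' B' → (A' ∩ F).Nonempty → F ⊆ A' := by
    intro A' B' h hmeet
    by_contra hnot
    obtain ⟨-, -, h1⟩ := region_lem1 hw hc hF hmin h hmeet hnot
    have hle := (hFmin _ _ h).2
    rw [Prod.Lex.toLex_le_toLex] at hle
    rcases hle with h | h
    · linarith
    · linarith [h.1]
  -- a covered vertex of F
  have hpos : 0 < wt w (F ∩ Cov adj w c) := lt_of_le_of_lt hc0 (hnu _ _ hF).1
  obtain ⟨x, hx⟩ : (F ∩ Cov adj w c).Nonempty := by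
    by_contra hemp
    rw [Finset.not_nonempty_iff_eq_empty] at hemp
    rw [hemp] at hpos
    simp [wt] at hpos
  rw [Finset.mem_inter] at hx
  obtain ⟨hxF, hxC⟩ := hx
  simp only [Cov, Finset.mem_filter, Finset.mem_univ, true_and] at hxC
  obtain ⟨A, B, hAB, hxT⟩ := hxC
  refine ⟨A, ⟨BF, hF⟩, ⟨B, hAB⟩, hmin, hgood, ?_⟩
  rw [Finset.disjoint_left]
  intro y hy hyA
  have := hgood A B hAB ⟨y, Finset.mem_inter.2 ⟨hyA, hy⟩⟩
  exact (region_mem_TT.1 hxT).1 (this hxF)

theorem region : Stmt_Region := by
  classical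
  intro V _ _ adj w c hw hc0 hc hex hnu
  have hc' : ∀ A B, Sep (rev adj) A B → c ≤ wt w (TT A B) := by
    intro A B h
    rw [region_TT_comm]
    exact hc _ _ (region_sep_rev h)
  have hnu' : ∀ A B, Tight (rev adj) w c A B →
      c < wt w (A ∩ Cov (rev adj) w c) ∧ c < wt w (B ∩ Cov (rev adj) w c) := by
    intro A B h
    rw [region_cov_rev]
    exact (hnu _ _ (region_tight_rev_iff.1 h)).symm
  -- all triples
  let O : Bool → V → V → Prop := fun b => if b then adj else rev adj
  let S : Finset (Bool × Finset V × Finset V) := Finset.univ.filter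
    (fun q => RegionTriple (O q.1) w c q.2.1 q.2.2)
  have hS : S.Nonempty := by
    -- the fragment F
    let S' : Finset (Bool × Finset V × Finset V) := Finset.univ.filter
      (fun q => Tight (O q.1) w c q.2.1 q.2.2)
    have hS' : S'.Nonempty := by
      obtain ⟨A, B, h⟩ := hex
      exact ⟨(true, A, B), by simp only [S', Finset.mem_filter, Finset.mem_univ, true_and]; exact h⟩
    obtain ⟨⟨b, F, BF⟩, hm, hmin⟩ := Finset.exists_min_image S'
      (fun q => toLex (wt w (q.2.1 ∩ Cov adj w c), q.2.1.card)) hS'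
    simp only [S', Finset.mem_filter, Finset.mem_univ, true_and] at hm
    have hmin' : ∀ A B, Tight adj w c A B →
        toLex (wt w (F ∩ Cov adj w c), F.card) ≤ toLex (wt w (A ∩ Cov adj w c), A.card) ∧
        toLex (wt w (F ∩ Cov adj w c), F.card) ≤ toLex (wt w (B ∩ Cov adj w c), B.card) := by
      intro A B h
      constructor
      · exact hmin (true, A, B) (by
          simp only [S', Finset.mem_filter, Finset.mem_univ, true_and]; exact h)
      · exact hmin (false, B, A) (by
          simp only [S', Finset.mem_filter, Finset.mem_univ, true_and]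
          exact region_tight_rev h)
    cases b with
    | true =>
      obtain ⟨A, hA⟩ := region_exists_triple (adj := adj) hw hc0 hc hnu hm hmin'
      exact ⟨(true, F, A), by
        simp only [S, Finset.mem_filter, Finset.mem_univ, true_and]; exact hA⟩
    | false =>
      have hm' : Tight (rev adj) w c F BF := hm
      obtain ⟨A, hA⟩ := region_exists_triple (adj := rev adj) hw hc0 hc' hnu' hm' (by
        intro A B h
        rw [region_cov_rev]
        exact (hmin' _ _ (region_tight_rev_iff.1 h)).symm)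
      exact ⟨(false, F, A), by
        simp only [S, Finset.mem_filter, Finset.mem_univ, true_and]; exact hA⟩
  obtain ⟨⟨b, F, A₀⟩, hm, hmax⟩ := Finset.exists_max_image S
    (fun q => toLex (wt w (q.2.2 ∩ Cov adj w c), q.2.2.card)) hS
  simp only [S, Finset.mem_filter, Finset.mem_univ, true_and] at hm
  have hmax1 : ∀ F' A', RegionTriple adj w c F' A' →
      toLex (wt w (A' ∩ Cov adj w c), A'.card) ≤ toLex (wt w (A₀ ∩ Cov adj w c), A₀.card) := by
    intro F' A' h
    exact hmax (true, F', A') (by
      simp only [S, Finset.mem_filter, Finset.mem_univ, true_and]; exact h)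
  have hmax2 : ∀ F' A', RegionTriple (rev adj) w c F' A' →
      toLex (wt w (A' ∩ Cov adj w c), A'.card) ≤ toLex (wt w (A₀ ∩ Cov adj w c), A₀.card) := by
    intro F' A' h
    exact hmax (false, F', A') (by
      simp only [S, Finset.mem_filter, Finset.mem_univ, true_and]; exact h)
  cases b with
  | true =>
    have hm' : RegionTriple adj w c F A₀ := hm
    obtain ⟨B₀, hB₀⟩ := hm'.2.1
    obtain ⟨BF, hBF⟩ := hm'.1
    exact ⟨adj, Or.inl rfl, A₀, B₀, hB₀, ⟨F, BF, hBF, hm'.2.2.2.2⟩,
      region_core hw hc hnu hm' hmax1 hmax2⟩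
  | false =>
    have hm' : RegionTriple (rev adj) w c F A₀ := hm
    obtain ⟨B₀, hB₀⟩ := hm'.2.1
    obtain ⟨BF, hBF⟩ := hm'.1
    refine ⟨rev adj, Or.inr rfl, A₀, B₀, hB₀, ⟨F, BF, hBF, hm'.2.2.2.2⟩,
      region_core hw hc' hnu' hm' ?_ ?_⟩
    · rw [region_cov_rev]
      exact hmax2
    · rw [region_cov_rev, region_rev_rev]
      exact hmax1

end Pool.MDP
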