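import Pool.Agent.MDP.Defs

/-!
Frozen statements of the modules. Paper: /team-store/MDP_paper.md
-/

open Finset

noncomputable section

namespace Pool.MDP

/-- The count (section 7): total weight of the covered part of the leaves. -/
def Stmt_Count : Prop := ∀ (V : Type) [Fintype V] [DecidableEq V] (adj : V → V → Prop)
  (w : V → ℝ) (c : ℝ) (𝒟 : Finset (Finset V)) (R : Finset V),
  (∀ v, 0 < w v) → (∀ D ∈ 𝒟, D.Nonempty ∧ D ⊆ R ∧ wt w (Nout adj D) = c) →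
  (∀ D₁ ∈ 𝒟, ∀ D₂ ∈ 𝒟, (D₁ ∩ D₂).Nonempty → D₁ ∩ D₂ ∈ 𝒟 ∧ D₁ ∪ D₂ ∈ 𝒟) →
  (∀ Z ⊆ R, Z.Nonempty → c ≤ wt w (Nout adj Z)) → 𝒟.Nonempty →
  wt w (covset adj 𝒟) ≤ (((leaves 𝒟).card : ℝ) - 1) * c

/-- The region (sections 1, 2, 4): if all fragments have covered weight `> c`, then for one of the
two orientations there is a tight `A₀` such that every inclusion-minimal tight set `E` disjoint
from `A₀` is good, and every tight set containing `A₀` and disjoint from such an `E` is `A₀`. -/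
def Stmt_Region : Prop := ∀ (V : Type) [Fintype V] [DecidableEq V] (adj : V → V → Prop)
  (w : V → ℝ) (c : ℝ), (∀ v, 0 < w v) → 0 ≤ c → (∀ A B, Sep adj A B → c ≤ wt w (TT A B)) →
  (∃ A B, Tight adj w c A B) →
  (∀ A B, Tight adj w c A B → c < wt w (A ∩ Cov adj w c) ∧ c < wt w (B ∩ Cov adj w c)) →
  ∃ adj' : V → V → Prop, (adj' = adj ∨ adj' = rev adj) ∧ ∃ A₀ B₀ : Finset V,
    Tight adj' w c A₀ B₀ ∧ (∃ F B, Tight adj' w c F B ∧ Disjoint F A₀) ∧
    ∀ E BE, Tight adj' w c E BE → Disjoint E A₀ →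
      (∀ A B, Tight adj' w c A B → A ⊆ E → A = E) →
      (∀ A B, Tight adj' w c A B → (A ∩ E).Nonempty → E ⊆ A) ∧
      (∀ A B, Tight adj' w c A B → Disjoint A E → A₀ ⊆ A → A = A₀)

/-- The light fragment lemma. -/
def Stmt_LFL : Prop := ∀ (V : Type) [Fintype V] [DecidableEq V] (adj : V → V → Prop)
  (w : V → ℝ) (c : ℝ), (∀ v, 0 < w v) → (∀ A B, Sep adj A B → c ≤ wt w (TT A B)) →
  (∃ A B, Tight adj w c A B) →
  ∃ A B, Tight adj w c A B ∧
    (wt w (A ∩ Cov adj w c) ≤ c ∨ wt w (B ∩ Cov adj w c) ≤ c)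

/-- Minimal weights. -/
def Stmt_MinW : Prop := ∀ (V : Type) [Fintype V] [DecidableEq V] (F : Finset (Finset V))
  (k θ : ℝ), θ ≤ 1 → (∀ T ∈ F, k ≤ (T.card : ℝ)) →
  ∃ w : V → ℝ, (∀ v, θ ≤ w v ∧ w v ≤ 1) ∧ (∀ T ∈ F, k ≤ wt w T) ∧
    ∀ v, θ < w v → ∃ T ∈ F, v ∈ T ∧ wt w T = k

/-- The theorem, separator version. -/
def Stmt_Good : Prop := ∀ (m k n : ℕ), 1 ≤ m → 1 ≤ k →
  ∀ (adj : Fin n → Fin n → Prop), (∀ v, ¬ adj v v) → SepConn adj k univ →
  (∀ v, 2 * k * m + m - 1 ≤ Set.ncard {w | adj v w} ∧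
    2 * k * m + m - 1 ≤ Set.ncard {w | adj w v}) →
  ∃ P : Fin m → Fin n, Function.Injective P ∧
    (∀ i j : Fin m, i.val + 1 = j.val → adj (P i) (P j)) ∧
    SepConn adj k (univ \ univ.image P)

/-- disjoint paths give large separators -/
def Stmt_Men1 : Prop := ∀ (n k : ℕ) (adj : Fin n → Fin n → Prop) (W : Finset (Fin n)),
  PathConn adj k (W : Set (Fin n)) → SepConn adj k W

/-- large separators give disjoint paths (Menger; from Hall's theorem, section 9) -/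
def Stmt_Men2 : Prop := ∀ (n k : ℕ) (adj : Fin n → Fin n → Prop) (W : Finset (Fin n)),
  1 ≤ k → SepConn adj k W → PathConn adj k (W : Set (Fin n))

/-- The final theorem. -/
def Stmt_Final : Prop := ∀ (m k n : ℕ), 1 ≤ m → 1 ≤ k →
  ∀ (adj : Fin n → Fin n → Prop), (∀ v, ¬ adj v v) →
  PathConn adj k Set.univ →
  (∀ v, 2 * k * m + m - 1 ≤ Set.ncard {w | adj v w} ∧
    2 * k * m + m - 1 ≤ Set.ncard {w | adj w v}) →
  ∃ P : Fin m → Fin n, Function.Injective P ∧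
    (∀ i j : Fin m, i.val + 1 = j.val → adj (P i) (P j)) ∧
    PathConn adj k (Set.range P)ᶜ

end Pool.MDP
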